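import Pool.Agent.LAT.StmtsM

/-!
# Squad LAT, row CNT: the number of chains of `PP L D`
-/

set_option autoImplicit false

namespace Pool.Agent.LAT.H72

open Matrix

theorem map_injOn {α β : Type} {f : α → β} {S : Set α} (h : Set.InjOn f S) :
    ∀ l₁ l₂ : List α, (∀ x ∈ l₁, x ∈ S) → (∀ x ∈ l₂, x ∈ S) → l₁.map f = l₂.map f → l₁ = l₂ := by
  intro l₁
  induction l₁ with
  | nil =>
    intro l₂ _ _ he
    have : l₂ = [] := by simpa using he.symm
    exact this.symm
  | cons a l₁ ih =>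
    intro l₂ h1 h2 he
    rcases l₂ with _ | ⟨b, l₂⟩
    · simp at he
    · simp only [List.map_cons, List.cons.injEq] at he
      have e1 : a = b := h (h1 a (by simp)) (h2 b (by simp)) he.1
      have e2 : l₁ = l₂ := ih l₂ (fun x hx => h1 x (by simp [hx])) (fun x hx => h2 x (by simp [hx])) he.2
      rw [e1, e2]

theorem rows_eq_bot {k m : ℕ} (B : Matrix (Fin k) (Fin m) ℤ) : rows B = ⊥ ↔ B = 0 := by
  unfold rows
  rw [Submodule.span_eq_bot]
  constructor
  · intro h
    funext i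
    exact h _ ⟨i, rfl⟩
  · rintro rfl x ⟨i, rfl⟩
    rfl

theorem pp_iff (hHnd : HndStmt) {m : ℕ} (L : Submodule ℤ (Fin m → ℤ)) (D : ℕ)
    (B : Matrix (Fin m) (Fin m) ℤ) : PP L D B ↔ IsHNF B ∧ PM L D (rows B) := by
  unfold PP PM
  constructor
  · rintro ⟨h1, h2, h3, h4⟩
    refine ⟨h1, fun h => h2 ((rows_eq_bot B).1 h), h3, ?_⟩
    rw [(hHnd m B h1).1, (hHnd m B h1).2]
    exact h4
  · rintro ⟨h1, h2, h3, h4⟩
    refine ⟨h1, fun h => h2 ((rows_eq_bot B).2 h), h3, ?_⟩
    rw [(hHnd m B h1).1, (hHnd m B h1).2] at h4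
    exact h4

theorem pp_finite (hBnd : BndStmt) {m : ℕ} (L : Submodule ℤ (Fin m → ℤ)) (D : ℕ) :
    {B : Matrix (Fin m) (Fin m) ℤ | PP L D B}.Finite := by
  have h := Set.finite_Icc (fun (_ _ : Fin m) => -((m : ℤ) * (D : ℤ) ^ m))
    (fun (_ _ : Fin m) => (m : ℤ) * (D : ℤ) ^ m)
  refine Set.Finite.subset h fun B hB => ?_
  have h2 := (hBnd m L D B hB).2
  constructor
  · intro i j
    exact (abs_le.1 (h2 i j)).1
  · intro i j
    exact (abs_le.1 (h2 i j)).2

theorem cnt (hPar : ParStmt) (hCon : ConStmt) (hBnd : BndStmt) (hHne : HneStmt) (hHnu : HnuStmt)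
    (hHnd : HndStmt) (hVec : VecStmt) (hMin : MinStmt) (hChn : ChnStmt) : CntStmt := by
  classical
  intro m L D
  have hpp := pp_iff hHnd L D
  choose g hg1 hg2 using hHne m
  have hinj : Set.InjOn (fun B : Matrix (Fin m) (Fin m) ℤ => rows B) {B | PP L D B} := by
    intro B hB B' hB' h
    exact hHnu m B B' hB.1 hB'.1 h
  have hPMfin : {M | PM L D M}.Finite := by
    refine Set.Finite.subset ((pp_finite hBnd L D).image (fun B => rows B)) fun M hM => ?_
    refine ⟨g M, ?_, hg2 M⟩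
    exact (hpp (g M)).2 ⟨hg1 M, by rw [hg2]; exact hM⟩
  have himg : (fun l => List.map (fun B : Matrix (Fin m) (Fin m) ℤ => rows B) l) '' chL L D =
      {l : List (Submodule ℤ (Fin m → ℤ)) | l ≠ [] ∧ (∀ x ∈ l, x ∈ {M | PM L D M}) ∧
        l.Pairwise (· < ·)} := by
    ext l
    simp only [Set.mem_image, Set.mem_setOf_eq, chL]
    constructor
    · rintro ⟨l', ⟨h1, h2, h3⟩, rfl⟩
      refine ⟨by simpa using h1, ?_, ?_⟩
      · intro x hx
        obtain ⟨B, hB, rfl⟩ := List.mem_map.1 hx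
        exact ((hpp B).1 (h2 B hB)).2
      · rw [List.pairwise_map]
        exact h3
    · rintro ⟨h1, h2, h3⟩
      refine ⟨l.map g, ⟨by simpa using h1, ?_, ?_⟩, ?_⟩
      · intro B hB
        obtain ⟨M, hM, rfl⟩ := List.mem_map.1 hB
        exact (hpp (g M)).2 ⟨hg1 M, by rw [hg2]; exact h2 M hM⟩
      · rw [List.pairwise_map]
        simpa only [hg2] using h3
      · rw [List.map_map]
        have : ((fun B : Matrix (Fin m) (Fin m) ℤ => rows B) ∘ g) = id := by
          funext M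
          exact hg2 M
        rw [this, List.map_id]
  have hinjL : Set.InjOn (fun l => List.map (fun B : Matrix (Fin m) (Fin m) ℤ => rows B) l)
      (chL L D) := by
    intro l₁ h1 l₂ h2 he
    exact map_injOn hinj l₁ l₂ h1.2.1 h2.2.1 he
  have hempty : (¬ ∃ M, PM L D M) → chL L D = ∅ := by
    intro h
    rw [Set.eq_empty_iff_forall_notMem]
    rintro l ⟨h1, h2, _⟩
    obtain ⟨B, hB⟩ := List.exists_mem_of_ne_nil l h1
    exact h ⟨rows B, ((hpp B).1 (h2 B hB)).2⟩
  have hodd : (∃ M, PM L D M) → (chL L D).Finite ∧ Odd (chL L D).ncard := by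
    intro h
    obtain ⟨T, hT, hj⟩ := hCon m L D h
    obtain ⟨hf, ho⟩ := hPar _ {M | PM L D M} hPMfin T hT (fun x hx => hj x hx)
    rw [← himg, Set.ncard_image_of_injOn hinjL] at ho
    refine ⟨?_, ho⟩
    refine Set.Finite.of_finite_image ?_ hinjL
    rw [himg]
    exact hf.subset fun l hl => hl.2
  refine ⟨?_, ?_, ?_, ?_, ?_⟩
  · by_cases h : ∃ M, PM L D M
    · exact (hodd h).1
    · rw [hempty h]
      exact Set.finite_empty
  · intro l hl
    have h1 : (fun l => List.map (fun B : Matrix (Fin m) (Fin m) ℤ => rows B) l) l ∈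
        {l : List (Submodule ℤ (Fin m → ℤ)) | l ≠ [] ∧ (∀ x ∈ l, x ∈ {M | PM L D M}) ∧
          l.Pairwise (· < ·)} := by
      rw [← himg]
      exact ⟨l, hl, rfl⟩
    have h2 := hChn m L D _ h1.2.1 h1.2.2
    simpa using h2
  · rintro ⟨w, hw, hw0, hwD⟩
    exact (hodd ⟨_, hVec m L D w hw0 hw hwD⟩).2
  · intro h
    refine hempty ?_
    rintro ⟨M, hM⟩
    obtain ⟨w, hw, hw0, hle⟩ := hMin m L D M hM
    have h1 := h w (hM.2.1 hw) hw0
    have h2 : rk M ≤ rk L := Submodule.finrank_mono hM.2.1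
    have h3 : (rk M : ℤ) * D ≤ (rk L : ℤ) * D :=
      mul_le_mul_of_nonneg_right (by exact_mod_cast h2) (by positivity)
    linarith
  · by_cases h : ∃ M, PM L D M
    · exact Or.inl (hodd h).2
    · exact Or.inr (hempty h)

end Pool.Agent.LAT.H72
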