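import Pool.Agent.LAT.StmtsF

/-!
# Squad LAT, row FNM: the interface of block M
-/

set_option autoImplicit false

namespace Pool.Agent.LAT.H72

open Matrix

theorem mem_rows {n m : ℕ} (A : Matrix (Fin n) (Fin m) ℤ) (w : Fin m → ℤ) :
    w ∈ rows A ↔ ∃ c : Fin n → ℤ, w = c ᵥ* A := by
  unfold rows
  rw [Submodule.mem_span_range_iff_exists_fun]
  simp only [Matrix.vecMul_eq_sum, eq_comm]

theorem rk_rows {n m : ℕ} (A : Matrix (Fin n) (Fin m) ℤ)
    (hA : LinearIndependent ℤ (fun i => A i)) : rk (rows A) = n := by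
  unfold rk rows
  rw [finrank_span_eq_card hA, Fintype.card_fin]

theorem le_of_indep {n m : ℕ} (A : Matrix (Fin n) (Fin m) ℤ)
    (hA : LinearIndependent ℤ (fun i => A i)) : n ≤ m := by
  have h := hA.fintype_card_le_finrank
  rw [Fintype.card_fin, Module.finrank_fin_fun] at h
  exact h

theorem vecMul_ne_zero {n m : ℕ} (A : Matrix (Fin n) (Fin m) ℤ)
    (hA : LinearIndependent ℤ (fun i => A i)) (c : Fin n → ℤ) (hc : c ≠ 0) : c ᵥ* A ≠ 0 := by
  intro h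
  rw [Matrix.vecMul_eq_sum] at h
  rw [Fintype.linearIndependent_iff] at hA
  exact hc (funext fun i => hA c h i)

/-- powers of two -/
theorem fact_le_two (s m : ℕ) (h : m ≤ s) : (m.factorial : ℤ) ≤ 2 ^ (s * s) := by
  have h1 : m.factorial ≤ m ^ m := Nat.factorial_le_pow m
  have h2 : m ^ m ≤ (2 ^ s) ^ m := Nat.pow_le_pow_left (h.trans Nat.lt_two_pow_self.le) m
  have h3 : (2 ^ s) ^ m ≤ 2 ^ (s * s) := by
    rw [← pow_mul]
    exact Nat.pow_le_pow_right (by norm_num) (Nat.mul_le_mul_left s h)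
  have h4 := h1.trans (h2.trans h3)
  exact_mod_cast h4

theorem nat_le_two (s m : ℕ) (h : m ≤ s) : (m : ℤ) ≤ 2 ^ s := by
  have h1 : m ≤ 2 ^ s := h.trans Nat.lt_two_pow_self.le
  exact_mod_cast h1

theorem two_pow_mono {a b : ℕ} (h : a ≤ b) : (2 : ℤ) ^ a ≤ 2 ^ b :=
  pow_le_pow_right₀ (by norm_num) h

theorem size_le_of_lt {s D : ℕ} (h : D < 2 ^ s) : Nat.size D ≤ s := Nat.size_le.2 h

theorem len_bound {s m D : ℕ} (hm : m ≤ s) (hD : D < 2 ^ s) :
    m * (1 + m * Nat.size D) ≤ (s + 2) ^ 10 := by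
  have h1 : m * (1 + m * Nat.size D) ≤ s * (1 + s * s) := by
    have := size_le_of_lt hD
    gcongr
  have h2 : s * (1 + s * s) ≤ (s + 2) ^ 3 := by nlinarith [Nat.zero_le s]
  exact h1.trans (h2.trans (Nat.pow_le_pow_right (by omega) (by norm_num)))

theorem pow_le_s (s D m : ℕ) (hm : m ≤ s) (hD : D < 2 ^ s) : (D : ℤ) ^ m ≤ 2 ^ (s * s) := by
  have h1 : D ^ m ≤ (2 ^ s) ^ m := Nat.pow_le_pow_left hD.le m
  have h3 : (2 ^ s) ^ m ≤ 2 ^ (s * s) := by
    rw [← pow_mul]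
    exact Nat.pow_le_pow_right (by norm_num) (Nat.mul_le_mul_left s hm)
  exact_mod_cast h1.trans h3

theorem exp_bound (s e : ℕ) (h : e < (s + 2) ^ 8) : (2 : ℤ) ^ e < 2 ^ ((s + 2) ^ 8) :=
  pow_lt_pow_right₀ (by norm_num) h

theorem exp_ok (s e : ℕ) (h : e ≤ 8 * (s + 2) ^ 3) : (2 : ℤ) ^ e < 2 ^ ((s + 2) ^ 8) := by
  refine exp_bound s e ?_
  have h1 : (s + 2) ^ 8 = (s + 2) ^ 3 * (s + 2) ^ 5 := by ring
  have h2 : 2 ^ 5 ≤ (s + 2) ^ 5 := Nat.pow_le_pow_left (by omega) 5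
  have h3 : 0 < (s + 2) ^ 3 := by positivity
  have h4 : (s + 2) ^ 3 * 2 ^ 5 ≤ (s + 2) ^ 3 * (s + 2) ^ 5 := Nat.mul_le_mul_left _ h2
  rw [h1]
  omega

theorem B_bound (hBnd : BndStmt) {m s D : ℕ} (hm : m ≤ s) (hD : D < 2 ^ s)
    (L : Submodule ℤ (Fin m → ℤ)) (B : Matrix (Fin m) (Fin m) ℤ) (hB : PP L D B) (i j : Fin m) :
    |B i j| ≤ 2 ^ (s * s + s) := by
  have h1 := (hBnd m L D B hB).2 i j
  have h2 := nat_le_two s m hm
  have h3 := pow_le_s s D m hm hD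
  have h4 : (m : ℤ) * (D : ℤ) ^ m ≤ 2 ^ s * 2 ^ (s * s) := by gcongr
  rw [pow_add, mul_comm ((2 : ℤ) ^ (s * s))]
  exact h1.trans h4

theorem G_bound {m s : ℕ} (hm : m ≤ s) (B : Matrix (Fin m) (Fin m) ℤ) (b : ℤ) (hb : 1 ≤ b)
    (hB : ∀ i j, |B i j| ≤ b) (i j : Fin m) : |GG B i j| ≤ 2 ^ s * b ^ 2 := by
  unfold GG EE
  rw [Matrix.add_apply, Matrix.mul_apply]
  have h1 : |∑ k, B i k * Bᵀ k j| ≤ (m : ℤ) * b ^ 2 := by
    refine (Finset.abs_sum_le_sum_abs _ _).trans ?_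
    have : ∀ k ∈ (Finset.univ : Finset (Fin m)), |B i k * Bᵀ k j| ≤ b ^ 2 := by
      intro k _
      rw [Matrix.transpose_apply, abs_mul, pow_two]
      exact mul_le_mul (hB i k) (hB j k) (abs_nonneg _) (by linarith)
    refine (Finset.sum_le_card_nsmul _ _ _ this).trans ?_
    simp
  have h2 : |Matrix.diagonal (fun k => if B k k = 0 then (1 : ℤ) else 0) i j| ≤ b ^ 2 := by
    have hb2 : 1 ≤ b ^ 2 := by nlinarith
    by_cases hij : i = j
    · subst hij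
      rw [Matrix.diagonal_apply_eq]
      split_ifs
      · simpa using hb2
      · simp; positivity
    · rw [Matrix.diagonal_apply_ne _ hij]
      simp; positivity
  have h3 : (m : ℤ) + 1 ≤ 2 ^ s := by
    have : m + 1 ≤ 2 ^ s := by
      have := Nat.lt_two_pow_self (n := s)
      omega
    exact_mod_cast this
  have h4 : ((m : ℤ) + 1) * b ^ 2 ≤ 2 ^ s * b ^ 2 := by gcongr
  refine (abs_add_le _ _).trans ?_
  linarith

theorem GG_symm {m : ℕ} (B : Matrix (Fin m) (Fin m) ℤ) : (GG B).IsSymm := by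
  unfold GG EE Matrix.IsSymm
  rw [Matrix.transpose_add, Matrix.transpose_mul, Matrix.transpose_transpose,
    Matrix.diagonal_transpose]

theorem fnm (hCnt : CntStmt) (hGgp : GgpStmt) (hCet : CetStmt) (hBnd : BndStmt) (hInc : IncStmt)
    (hIna : InaStmt) (hHnu : HnuStmt) : FnmStmt := by
  intro n m s D A hA hm hD hAe
  have hnm := le_of_indep A hA
  obtain ⟨c1, c2, c3, c4, c5⟩ := hCnt m (rows A) D
  have hb1 : (1 : ℤ) ≤ 2 ^ (s * s + s) := one_le_pow₀ (by norm_num)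
  have ha1 : (1 : ℤ) ≤ 2 ^ s := one_le_pow₀ (by norm_num)
  have hBb : ∀ B, PP (rows A) D B → ∀ i j, |B i j| ≤ 2 ^ (s * s + s) :=
    fun B hB => B_bound hBnd hm hD (rows A) B hB
  refine
    { nm := hnm
      fin := c1
      len := fun l hl => (c2 l hl).trans (len_bound hm hD)
      yes := ?_
      no := ?_
      dich := c5
      bB := ?_
      exY := ?_
      unY := ?_
      detY := ?_
      inc := ?_
      unX := ?_
      bX := ?_
      ina := ?_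
      unA := ?_
      bA := ?_
      eqr := fun B B' h h' => hHnu m B B' h h'
      pw := ?_ }
  · rintro ⟨c, hc, hle⟩
    exact c3 ⟨c ᵥ* A, (mem_rows A _).2 ⟨c, rfl⟩, vecMul_ne_zero A hA c hc, hle⟩
  · intro h
    refine c4 ?_
    intro w hw hw0
    obtain ⟨c, rfl⟩ := (mem_rows A w).1 hw
    rw [rk_rows A hA]
    refine h c ?_
    rintro rfl
    exact hw0 (Matrix.zero_vecMul A)
  · intro B hB i j
    refine (hBb B hB i j).trans_lt (exp_ok s _ ?_)
    nlinarith [Nat.zero_le s, Nat.zero_le (s * s * s)]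
  · intro B hB
    obtain ⟨h1, -, -, h4⟩ := hCet m (GG B) (GG_symm B) (hGgp m B hB.1)
    obtain ⟨Y, hY⟩ := h1
    refine ⟨Y, hY, fun i j => ?_⟩
    have h5 := G_bound hm B _ hb1 (hBb B hB)
    have h6 : (1 : ℤ) ≤ 2 ^ s * (2 ^ (s * s + s)) ^ 2 := by
      have := one_le_pow₀ (n := 2) hb1
      nlinarith
    have h7 := h4 _ h6 h5 Y hY i j
    refine h7.trans_lt ?_
    have h8 : ((2 : ℤ) ^ s * (2 ^ (s * s + s)) ^ 2) ^ m ≤ (2 ^ s * (2 ^ (s * s + s)) ^ 2) ^ s :=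
      pow_le_pow_right₀ h6 hm
    have h9 := fact_le_two s m hm
    have h10 : (m.factorial : ℤ) * ((2 : ℤ) ^ s * (2 ^ (s * s + s)) ^ 2) ^ m ≤
        2 ^ (s * s) * (2 ^ s * (2 ^ (s * s + s)) ^ 2) ^ s := by gcongr
    have h11 : (2 : ℤ) ^ (s * s) * (2 ^ s * (2 ^ (s * s + s)) ^ 2) ^ s =
        2 ^ (s * s + (s + (s * s + s) * 2) * s) := by
      rw [← pow_mul, ← pow_add, ← pow_mul, ← pow_add]
    rw [h11] at h10
    refine h10.trans_lt (exp_ok s _ ?_)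
    nlinarith [Nat.zero_le s, Nat.zero_le (s * s * s)]
  · intro B hB Y Y' hY hY'
    exact (hCet m (GG B) (GG_symm B) (hGgp m B hB)).2.1 Y Y' hY hY'
  · intro B hB Y hY i hi
    exact (hCet m (GG B) (GG_symm B) (hGgp m B hB)).2.2.1 Y hY i hi
  · intro B B' hB'
    exact (hInc m m B B' hB').1
  · intro B B' hB' X X' h1 h2 h3 h4
    exact (hInc m m B B' hB').2.1 X X' h1 h2 h3 h4
  · intro B B' hB hB' X h1 h2 i j
    have h := (hInc m m B B' hB'.1).2.2 _ hb1 (hBb B hB) (hBb B' hB') X h1 h2 i j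
    refine h.trans_lt ?_
    have h8 : ((2 : ℤ) ^ (s * s + s)) ^ m ≤ (2 ^ (s * s + s)) ^ s := pow_le_pow_right₀ hb1 hm
    have h9 := fact_le_two s m hm
    have h12 := nat_le_two s m hm
    have h10 : (m : ℤ) * 2 ^ (s * s + s) * ((m.factorial : ℤ) * (2 ^ (s * s + s)) ^ m) ≤
        2 ^ s * 2 ^ (s * s + s) * (2 ^ (s * s) * (2 ^ (s * s + s)) ^ s) := by gcongr
    have h11 : (2 : ℤ) ^ s * 2 ^ (s * s + s) * (2 ^ (s * s) * (2 ^ (s * s + s)) ^ s) =
        2 ^ (s + (s * s + s) + (s * s + (s * s + s) * s)) := by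
      rw [← pow_mul, ← pow_add, ← pow_add, ← pow_add]
    rw [h11] at h10
    refine h10.trans_lt (exp_ok s _ ?_)
    nlinarith [Nat.zero_le s, Nat.zero_le (s * s * s)]
  · intro B
    exact (hIna m n m B A hA).1
  · intro B X X'
    exact (hIna m n m B A hA).2.1 X X'
  · intro B hB X hX i j
    have h := (hIna m n m B A hA).2.2 (2 ^ s) (2 ^ (s * s + s)) ha1 (by linarith)
      (fun i j => (hAe i j).le) (hBb B hB) X hX i j
    refine h.trans_lt ?_
    have hn := hnm.trans hm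
    have h9 := fact_le_two s n hn
    have h12 := nat_le_two s m hm
    have h13 := nat_le_two s n hn
    have h14 : (1 : ℤ) ≤ 2 ^ s * (2 ^ s) ^ 2 := by
      have := one_le_pow₀ (n := 2) ha1
      nlinarith
    have h8 : ((2 : ℤ) ^ s * (2 ^ s) ^ 2) ^ n ≤ (2 ^ s * (2 ^ s) ^ 2) ^ s :=
      pow_le_pow_right₀ h14 hn
    have h15 : ((m : ℤ) * (2 ^ s) ^ 2) ^ n ≤ (2 ^ s * (2 ^ s) ^ 2) ^ n := by gcongr
    have h10 : (n : ℤ) * (m * 2 ^ s * 2 ^ (s * s + s)) *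
        ((n.factorial : ℤ) * (m * (2 ^ s) ^ 2) ^ n) ≤
        2 ^ s * (2 ^ s * 2 ^ s * 2 ^ (s * s + s)) * (2 ^ (s * s) * (2 ^ s * (2 ^ s) ^ 2) ^ s) := by
      have := h15.trans h8
      gcongr
    have h11 : (2 : ℤ) ^ s * (2 ^ s * 2 ^ s * 2 ^ (s * s + s)) *
        (2 ^ (s * s) * (2 ^ s * (2 ^ s) ^ 2) ^ s) =
        2 ^ (s + (s + s + (s * s + s)) + (s * s + (s + s * 2) * s)) := by
      simp only [← pow_mul, ← pow_add]
    rw [h11] at h10
    refine h10.trans_lt (exp_ok s _ ?_)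
    nlinarith [Nat.zero_le s, Nat.zero_le (s * s * s)]
  · intro i hi
    refine (pow_le_s s D i (hi.trans hm) hD).trans_lt (exp_ok s _ ?_)
    nlinarith [Nat.zero_le s, Nat.zero_le (s * s * s)]

end Pool.Agent.LAT.H72
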