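import Pool.Agent.Helper72_LAT.PAR
import Pool.Agent.Helper72_LAT.CNT
import Pool.Agent.Helper72_LAT.FNM
import Pool.Agent.Helper21_LAT.BAS
import Pool.Agent.Helper22_LAT.POS
import Pool.Agent.Helper49_LAT.GSD
import Pool.Agent.Helper21_LAT.FIS
import Pool.Agent.Helper21_LAT.IDX
import Pool.Agent.Helper49_LAT.TOR
import Pool.Agent.Helper58_LAT.SUB
import Pool.Agent.Helper13_LAT.CHN
import Pool.Agent.Helper31_LAT.MNK
import Pool.Agent.Helper84_LAT.MIN
import Pool.Agent.Helper13_LAT.HNE
import Pool.Agent.Helper38_LAT.HNM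
import Pool.Agent.Helper8_LAT.HNU
import Pool.Agent.Helper58_LAT.HND
import Pool.Agent.Helper55_LAT.GGP
import Pool.Agent.Helper10_LAT.CER
import Pool.Agent.Helper8_LAT.CET
import Pool.Agent.Helper81_LAT.DMO
import Pool.Agent.Helper90_LAT.BND
import Pool.Agent.Helper80_LAT.INA
import Pool.Agent.Helper34_LAT.INC
import Pool.Agent.Helper70_LAT.Cone

/-!
# Squad LAT, block M: assembly
-/

set_option autoImplicit false

namespace Pool.Agent.LAT.H72

open Matrix Pool.Agent.LAT

theorem bas : BasStmt := H21.bas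
theorem pos : PosStmt := H22.pos
theorem gsd : GsdStmt := H49.gsd
theorem fis : FisStmt := H21.fis bas pos gsd
theorem idx : IdxStmt := H21.idx bas
theorem tor : TorStmt := H49.tor idx
theorem sub : SubStmt := H58.sub fis tor pos
theorem chn : ChnStmt := H13.chn idx pos
theorem vec : VecStmt := H21.vec bas
theorem mnk : MnkStmt := H31.mnk
theorem mi : MinStmt := H84.min mnk pos
theorem hne : HneStmt := H13.hne
theorem hnm : HnmStmt := H38.hnm
theorem hnu : HnuStmt := H8.hnu hnm
theorem hnd : HndStmt := H58.hnd bas hnm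
theorem ggp : GgpStmt := H55.ggp
theorem cer : CerStmt := H10.cer
theorem cet : CetStmt := H8.cet cer
theorem dmo : DmoStmt := H81.dmo
theorem bnd : BndStmt := H90.bnd dmo ggp
theorem ina : InaStmt := H80.ina pos

theorem con : ConStmt := H70.con sub pos
theorem inc : IncStmt := H34.inc hnm
theorem cntF : CntStmt := cnt par con bnd hne hnu hnd vec mi chn

/-- The interface of block M, without hypotheses. -/
theorem fnmF : FnmStmt := fnm cntF ggp cet bnd inc ina hnu

end Pool.Agent.LAT.H72
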