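import Pool.Agent.LAT.StmtsC
import Pool.Agent.Helper72_LAT.FNM

/-!
# Squad LAT, part 2, row FNC: the interface of block M
-/

set_option autoImplicit false

namespace Pool.Agent.LAT.H72

open Matrix

/-! ### Bounds -/

theorem PQ_bound (hBnd : BndStmt) {m s D : ℕ} (hm : m ≤ s) (hD : D < 2 ^ s)
    (L : Submodule ℤ (Fin m → ℤ)) (B : Matrix (Fin m) (Fin m) ℤ) (hB : PQ L D B) (i j : Fin m) :
    |B i j| ≤ 2 ^ (s * s + s) := by
  by_cases h : B = 0
  · rw [h, Matrix.zero_apply, abs_zero]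
    positivity
  · exact B_bound hBnd hm hD L B ⟨hB.1, h, hB.2.1, hB.2.2⟩ i j

theorem row_bound (hIna : InaStmt) {n m : ℕ} (A : Matrix (Fin n) (Fin m) ℤ)
    (hA : LinearIndependent ℤ (fun i => A i)) (a b : ℤ) (ha : 1 ≤ a) (hb : 0 ≤ b)
    (hAa : ∀ i j, |A i j| ≤ a) (u : Fin m → ℤ) (z : Fin n → ℤ) (hz : z ᵥ* A = u)
    (hu : ∀ j, |u j| ≤ b) (j : Fin n) :
    |z j| ≤ (n : ℤ) * (m * a * b) * ((n.factorial : ℤ) * (m * a ^ 2) ^ n) := by
  have h := (hIna 1 n m (Matrix.of fun _ j => u j) A hA).2.2 a b ha hb hAa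
    (fun _ j => hu j) (Matrix.of fun _ j => z j) (by
      ext i j
      rw [Matrix.mul_apply]
      show u j = _
      rw [← hz]
      rfl) 0 j
  exact h

theorem exp_u (s m : ℕ) (hm : m ≤ s) (x : ℤ)
    (hx : |x| ≤ 2 * ((2 ^ (s * s + s) : ℕ) : ℤ) + m * (m * (3 * ((2 ^ (s * s + s) : ℕ) : ℤ)) *
      (m.factorial * ((2 ^ (s * s + s) : ℕ) : ℤ) ^ m)) * ((2 ^ (s * s + s) : ℕ) : ℤ)) :
    |x| ≤ 2 ^ (s * s * s + 4 * (s * s) + 4 * s + 3) := by
  have hb1 : (1 : ℤ) ≤ 2 ^ (s * s + s) := one_le_pow₀ (by norm_num)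
  have h8 : ((2 : ℤ) ^ (s * s + s)) ^ m ≤ (2 ^ (s * s + s)) ^ s := pow_le_pow_right₀ hb1 hm
  have h9 := fact_le_two s m hm
  have h12 := nat_le_two s m hm
  have h3 : (3 : ℤ) * 2 ^ (s * s + s) ≤ 2 ^ 2 * 2 ^ (s * s + s) := by
    nlinarith
  push_cast at hx
  have h10 : (m : ℤ) * (m * (3 * 2 ^ (s * s + s)) * (m.factorial * (2 ^ (s * s + s)) ^ m)) *
      2 ^ (s * s + s) ≤ 2 ^ s * (2 ^ s * (2 ^ 2 * 2 ^ (s * s + s)) *
        (2 ^ (s * s) * (2 ^ (s * s + s)) ^ s)) * 2 ^ (s * s + s) := by gcongr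
  have h11 : (2 : ℤ) ^ s * (2 ^ s * (2 ^ 2 * 2 ^ (s * s + s)) *
        (2 ^ (s * s) * (2 ^ (s * s + s)) ^ s)) * 2 ^ (s * s + s) =
      2 ^ (s * s * s + 4 * (s * s) + 4 * s + 2) := by
    simp only [← pow_mul, ← pow_add]
    congr 1
    ring
  have h13 : (2 : ℤ) * 2 ^ (s * s + s) ≤ 2 ^ (s * s * s + 4 * (s * s) + 4 * s + 2) := by
    have : (2 : ℤ) * 2 ^ (s * s + s) = 2 ^ (s * s + s + 1) := by rw [pow_succ]; ring
    rw [this]
    refine two_pow_mono ?_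
    nlinarith [Nat.zero_le (s * s * s)]
  rw [h11] at h10
  have h14 : (2 : ℤ) ^ (s * s * s + 4 * (s * s) + 4 * s + 3) =
      2 ^ (s * s * s + 4 * (s * s) + 4 * s + 2) + 2 ^ (s * s * s + 4 * (s * s) + 4 * s + 2) := by
    rw [pow_succ]; ring
  rw [h14]
  linarith

theorem rng_of_lt {S : ℕ} {x : ℤ} (h : |x| < 2 ^ S) : Rng S x :=
  ⟨(abs_lt.1 h).1.le, (abs_lt.1 h).2⟩

theorem tail_rng (hIna : InaStmt) (hGgp : GgpStmt) (hDsr : DsrStmt) (hBnu : BnuStmt)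
    (hBny : BnyStmt) {n m s d : ℕ} (A : Matrix (Fin n) (Fin m) ℤ) (v : Fin m → ℤ)
    (hA : LinearIndependent ℤ (fun i => A i)) (hm : m ≤ s) (hd : 4 * d < 2 ^ s)
    (hAe : ∀ i j, |A i j| < 2 ^ s) (hv : ∀ j, |v j| < 2 ^ s) (B : Matrix (Fin m) (Fin m) ℤ)
    (hB : IsHNF B) (hBb : ∀ i j, |B i j| ≤ 2 ^ (s * s + s)) (u : Fin m → ℤ) (z : Fin n → ℤ)
    (y : Fin m → ℤ) (hT : Tail A v d B u z y) :
    (∀ j, Rng ((s + 2) ^ 8) (u j)) ∧ (∀ j, Rng ((s + 2) ^ 8) (z j)) ∧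
      ∀ j, Rng ((s + 2) ^ 8) (y j) := by
  have hn : n ≤ s := (le_of_indep A hA).trans hm
  have hs1 : (1 : ℤ) ≤ 2 ^ s := one_le_pow₀ (by norm_num)
  have hb1 : (1 : ℤ) ≤ 2 ^ (s * s + s) := one_le_pow₀ (by norm_num)
  have hsb : (2 : ℤ) ^ s ≤ 2 ^ (s * s + s) := two_pow_mono (by nlinarith)
  have hdet : 0 < (GG B).det := by
    have h := hGgp m B hB m le_rfl
    have e : LB (GG B) m = GG B := by
      ext i j
      simp [LB]
    rw [e] at h
    linarith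
  obtain ⟨p, hp, -, hpe⟩ := (hDsr m B (v - u) hB).2.2 y hT.sol
  have hsq : sq (rv (v - u) - p) ≤ d := by
    have h1 : ((GG B).det : ℝ) * sq (rv (v - u) - p) ≤ (GG B).det * d := by
      rw [← hpe]
      have h2 := hT.dist
      have h3 : ((y ⬝ᵥ (B *ᵥ (v - u)) + (GG B).det * ((v - u) ⬝ᵥ (v - u)) : ℤ) : ℝ) ≤
          (((d : ℤ) * (GG B).det : ℤ) : ℝ) := by exact_mod_cast h2
      refine h3.trans (le_of_eq ?_)
      push_cast
      ring
    have h4 : (0 : ℝ) < (GG B).det := by exact_mod_cast hdet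
    exact le_of_mul_le_mul_left h1 h4
  have hdb : d ≤ (2 ^ (s * s + s)) ^ 2 := by
    have h1 : 2 ^ s ≤ 2 ^ (s * s + s) := Nat.pow_le_pow_right (by norm_num) (by nlinarith)
    have h2 : 2 ^ (s * s + s) ≤ (2 ^ (s * s + s)) ^ 2 := by
      rw [pow_two]
      exact Nat.le_mul_of_pos_left _ (by positivity)
    omega
  have hu0 := hBnu m B u v d (2 ^ (s * s + s)) hB Nat.one_le_two_pow
    (fun i j => by
      have := hBb i j
      push_cast
      exact this)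
    (fun j => by
      have := hv j
      push_cast
      linarith) hdb hT.red ⟨p, hp, hsq⟩
  have hu : ∀ j, |u j| ≤ 2 ^ (s * s * s + 4 * (s * s) + 4 * s + 3) :=
    fun j => exp_u s m hm _ (hu0 j)
  have h9 := fact_le_two s n hn
  have h9m := fact_le_two s m hm
  have h12 := nat_le_two s m hm
  have h13 := nat_le_two s n hn
  refine ⟨fun j => rng_of_lt ?_, fun j => rng_of_lt ?_, fun j => rng_of_lt ?_⟩
  · refine (hu j).trans_lt (exp_ok s _ ?_)
    nlinarith [Nat.zero_le s, Nat.zero_le (s * s * s)]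
  · have h := row_bound hIna A hA (2 ^ s) (2 ^ (s * s * s + 4 * (s * s) + 4 * s + 3)) hs1
      (by positivity) (fun i j => (hAe i j).le) u z hT.mem hu j
    refine h.trans_lt ?_
    have h14 : (1 : ℤ) ≤ 2 ^ s * (2 ^ s) ^ 2 := by
      have := one_le_pow₀ (n := 2) hs1
      nlinarith
    have h8 : ((2 : ℤ) ^ s * (2 ^ s) ^ 2) ^ n ≤ (2 ^ s * (2 ^ s) ^ 2) ^ s :=
      pow_le_pow_right₀ h14 hn
    have h15 : ((m : ℤ) * (2 ^ s) ^ 2) ^ n ≤ (2 ^ s * (2 ^ s) ^ 2) ^ n := by gcongr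
    have h10 : (n : ℤ) * (m * 2 ^ s * 2 ^ (s * s * s + 4 * (s * s) + 4 * s + 3)) *
        ((n.factorial : ℤ) * (m * (2 ^ s) ^ 2) ^ n) ≤
        2 ^ s * (2 ^ s * 2 ^ s * 2 ^ (s * s * s + 4 * (s * s) + 4 * s + 3)) *
          (2 ^ (s * s) * (2 ^ s * (2 ^ s) ^ 2) ^ s) := by
      have := h15.trans h8
      gcongr
    have h11 : (2 : ℤ) ^ s * (2 ^ s * 2 ^ s * 2 ^ (s * s * s + 4 * (s * s) + 4 * s + 3)) *
        (2 ^ (s * s) * (2 ^ s * (2 ^ s) ^ 2) ^ s) =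
        2 ^ (s * s * s + 8 * (s * s) + 7 * s + 3) := by
      simp only [← pow_mul, ← pow_add]
      congr 1
      ring
    rw [h11] at h10
    refine h10.trans_lt (exp_ok s _ ?_)
    nlinarith [Nat.zero_le s, Nat.zero_le (s * s * s)]
  · have hg : ∀ j, |(v - u) j| ≤ 2 ^ (s * s * s + 4 * (s * s) + 4 * s + 4) := by
      intro j
      have h1 := (hv j).le
      have h2 := hu j
      have h3 : (2 : ℤ) ^ s ≤ 2 ^ (s * s * s + 4 * (s * s) + 4 * s + 3) :=
        two_pow_mono (by nlinarith [Nat.zero_le (s * s * s)])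
      have h4 : (2 : ℤ) ^ (s * s * s + 4 * (s * s) + 4 * s + 4) =
          2 ^ (s * s * s + 4 * (s * s) + 4 * s + 3) +
            2 ^ (s * s * s + 4 * (s * s) + 4 * s + 3) := by
        rw [pow_succ]; ring
      rw [h4]
      refine (abs_sub _ _).trans ?_
      linarith
    have hG := G_bound hm B _ hb1 hBb
    have h6 : (1 : ℤ) ≤ 2 ^ s * (2 ^ (s * s + s)) ^ 2 := by
      have := one_le_pow₀ (n := 2) hb1
      nlinarith
    have h := hBny m B (v - u) y _ _ _ hB (by positivity) hb1 h6 hBb hg hG hT.sol j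
    refine h.trans_lt ?_
    have h8 : ((2 : ℤ) ^ s * (2 ^ (s * s + s)) ^ 2) ^ m ≤ (2 ^ s * (2 ^ (s * s + s)) ^ 2) ^ s :=
      pow_le_pow_right₀ h6 hm
    have h10 : (m : ℤ) * (m * 2 ^ (s * s + s) * 2 ^ (s * s * s + 4 * (s * s) + 4 * s + 4)) *
        ((m.factorial : ℤ) * (2 ^ s * (2 ^ (s * s + s)) ^ 2) ^ m) ≤
        2 ^ s * (2 ^ s * 2 ^ (s * s + s) * 2 ^ (s * s * s + 4 * (s * s) + 4 * s + 4)) *
        (2 ^ (s * s) * (2 ^ s * (2 ^ (s * s + s)) ^ 2) ^ s) := by gcongr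
    have h11 : (2 : ℤ) ^ s * (2 ^ s * 2 ^ (s * s + s) *
          2 ^ (s * s * s + 4 * (s * s) + 4 * s + 4)) *
        (2 ^ (s * s) * (2 ^ s * (2 ^ (s * s + s)) ^ 2) ^ s) =
        2 ^ (3 * (s * s * s) + 9 * (s * s) + 7 * s + 4) := by
      simp only [← pow_mul, ← pow_add]
      congr 1
      ring
    rw [h11] at h10
    refine h10.trans_lt (exp_ok s _ ?_)
    nlinarith [Nat.zero_le s, Nat.zero_le (s * s * s)]

/-! ### The number of certificates -/

theorem det_pos' (hGgp : GgpStmt) {m : ℕ} (B : Matrix (Fin m) (Fin m) ℤ) (hB : IsHNF B) :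
    0 < (GG B).det := by
  have h := hGgp m B hB m le_rfl
  have e : LB (GG B) m = GG B := by
    ext i j
    simp [LB]
  rw [e] at h
  linarith

theorem chns_empty {α : Type} [Preorder α] : (chns (∅ : Set α)).ncard = 1 := by
  have : chns (∅ : Set α) = {[]} := by
    ext l
    simp only [chns, Set.mem_setOf_eq, Set.mem_empty_iff_false, Set.mem_singleton_iff]
    constructor
    · rintro ⟨h, -⟩
      exact List.eq_nil_iff_forall_not_mem.2 h
    · rintro rfl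
      exact ⟨by simp, List.Pairwise.nil⟩
  rw [this, Set.ncard_singleton]

/-- the set of the tails in the range -/
def TS {n m : ℕ} (A : Matrix (Fin n) (Fin m) ℤ) (v : Fin m → ℤ) (d s : ℕ)
    (B : Matrix (Fin m) (Fin m) ℤ) : Set ((Fin m → ℤ) × (Fin n → ℤ) × (Fin m → ℤ)) :=
  {t | Tail A v d B t.1 t.2.1 t.2.2 ∧ (∀ j, Rng ((s + 2) ^ 8) (t.1 j)) ∧
    (∀ j, Rng ((s + 2) ^ 8) (t.2.1 j)) ∧ ∀ j, Rng ((s + 2) ^ 8) (t.2.2 j)}

/-- the number of the certificates has the parity of the number of the tails of the optimal `M` -/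
theorem parity (hPhs : PhsStmt) (hHne : HneStmt) (hHnu : HnuStmt) (hHnd : HndStmt)
    (hOpt : OptStmt) (hEvu : EvuStmt) (hEvw : EvwStmt) (hFib : FibStmt) (hCsf : CsfStmt)
    (hFbp : FbpStmt) {n m d s : ℕ} (A : Matrix (Fin n) (Fin m) ℤ) (v : Fin m → ℤ) :
    ∃ B, PQ (rows A) (4 * d) B ∧ Opt (rows A) (4 * d) (rows B) ∧
      (Odd (CS A v d s).ncard ↔ Odd (TS A v d s B).ncard) := by
  obtain ⟨M, hM, hM1, huniq⟩ := hOpt m (rows A) (4 * d)
  obtain ⟨B₀, hB₀, rfl⟩ := hHne m M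
  obtain ⟨-, -, hph, -⟩ := hPhs m (4 * d)
  have hpq : ∀ B, PQ (rows A) (4 * d) B ↔ IsHNF B ∧ rows B ≤ rows A ∧
      1 ≤ ph (4 * d) (rows B) := by
    intro B
    unfold PQ
    refine and_congr_right fun hB => and_congr_right fun _ => ?_
    rw [hph, (hHnd m B hB).1, (hHnd m B hB).2]
  have hB₀q : PQ (rows A) (4 * d) B₀ := (hpq B₀).2 ⟨hB₀, hM.le, hM1⟩
  refine ⟨B₀, hB₀q, hM, ?_⟩
  rw [hFbp _ _ (CS A v d s) (fun q => q.1.getD q.2.1 0) B₀ (hCsf n m d s A v).1 ?_]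
  · show Odd ({q ∈ CS A v d s | q.1.getD q.2.1 0 = B₀}.ncard) ↔ _
    rw [hFib n m d s A v B₀ hB₀q]
    have hU : US (rows A) (4 * d) (rows B₀) = ∅ := by
      rw [Set.eq_empty_iff_forall_notMem]
      rintro N ⟨h1, h2, h3⟩
      exact absurd h3 (not_le.2 (hM.up N h1 h2))
    have hW : WS (4 * d) (rows B₀) = ∅ := by
      rw [Set.eq_empty_iff_forall_notMem]
      rintro N ⟨h1, h2⟩
      exact absurd h2 (not_lt.2 (hM.down N h1))
    rw [hU, hW, chns_empty, one_mul, one_mul]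
    rfl
  · intro B hB
    show Even ({q ∈ CS A v d s | q.1.getD q.2.1 0 = B}.ncard)
    by_cases hq : PQ (rows A) (4 * d) B
    · rw [hFib n m d s A v B hq]
      obtain ⟨h1, h2, h3⟩ := (hpq B).1 hq
      obtain ⟨-, hu⟩ := hEvu m (rows A) (4 * d) (rows B) h2 h3
      obtain ⟨-, hw⟩ := hEvw m (4 * d) (rows B) h3
      rcases hu with hu | hu
      · rcases hw with hw | hw
        · exfalso
          have hopt : Opt (rows A) (4 * d) (rows B) := by
            refine ⟨h2, fun N hN hN' => ?_, fun N hN => ?_⟩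
            · by_contra hlt
              have : N ∈ US (rows A) (4 * d) (rows B) := ⟨hN, hN', not_lt.1 hlt⟩
              rw [hu] at this
              exact this
            · by_contra hlt
              have : N ∈ WS (4 * d) (rows B) := ⟨hN, not_le.1 hlt⟩
              rw [hw] at this
              exact this
          exact hB (hHnu m B B₀ h1 hB₀ (huniq _ hopt))
        · exact (hw.mul_right _).mul_right _
      · exact (hu.mul_left _).mul_right _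
    · have : {q ∈ CS A v d s | q.1.getD q.2.1 0 = B} = ∅ := by
        rw [Set.eq_empty_iff_forall_notMem]
        rintro q ⟨h1, h2⟩
        exact hq (h2 ▸ h1.pq)
      rw [this, Set.ncard_empty]
      exact Even.zero

theorem fnc (hBnd : BndStmt) (hHne : HneStmt) (hHnu : HnuStmt) (hHnd : HndStmt) (hGgp : GgpStmt)
    (hCet : CetStmt) (hInc : IncStmt) (hIna : InaStmt) (hPhs : PhsStmt) (hOpt : OptStmt)
    (hEvu : EvuStmt) (hEvw : EvwStmt) (hDsr : DsrStmt) (hTlu : TluStmt) (hTle : TleStmt)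
    (hTln : TlnStmt) (hBnu : BnuStmt) (hBny : BnyStmt) (hFib : FibStmt) (hCsf : CsfStmt)
    (hFbp : FbpStmt) : FncStmt := by
  intro n m s d A v _ hA hm hD hAe hv
  have hnm := le_of_indep A hA
  have hb1 : (1 : ℤ) ≤ 2 ^ (s * s + s) := one_le_pow₀ (by norm_num)
  have ha1 : (1 : ℤ) ≤ 2 ^ s := one_le_pow₀ (by norm_num)
  have hBb : ∀ B, PQ (rows A) (4 * d) B → ∀ i j, |B i j| ≤ 2 ^ (s * s + s) :=
    fun B hB => PQ_bound hBnd hm hD (rows A) B hB
  obtain ⟨B₀, hB₀q, hB₀o, hpar⟩ := parity (d := d) (s := s) hPhs hHne hHnu hHnd hOpt hEvu hEvw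
    hFib hCsf hFbp A v
  have hrng := fun u z y hT => tail_rng hIna hGgp hDsr hBnu hBny A v hA hm hD hAe hv B₀ hB₀q.1
    (hBb B₀ hB₀q) u z y hT
  refine
    { nm := hnm
      len := ?_
      allpq := (hCsf n m d s A v).2.1
      yes := ?_
      no := ?_
      bB := ?_
      exY := ?_
      unY := ?_
      detY := ?_
      inc := ?_
      unX := ?_
      bX := ?_
      ina := ?_
      unA := ?_
      bA := ?_
      eqr := fun B B' h h' => hHnu m B B' h h'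
      pw := ?_ }
  · intro p hp
    refine ((hCsf n m d s A v).2.2 p hp).trans ?_
    have h1 : m * (1 + m * Nat.size (4 * d)) ≤ s * (1 + s * s) := by
      have := size_le_of_lt hD
      gcongr
    have h2 : 1 + s * (1 + s * s) ≤ (s + 2) ^ 3 := by nlinarith [Nat.zero_le s]
    exact ((Nat.add_le_add_left h1 1).trans h2).trans
      (Nat.pow_le_pow_right (by omega) (by norm_num))
  · intro h
    rw [hpar]
    obtain ⟨u, z, y, hT⟩ := hTle n m d A v B₀ hB₀q.1 hB₀q.2.1 h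
    have : TS A v d s B₀ = {(u, z, y)} := by
      ext ⟨u', z', y'⟩
      simp only [TS, Set.mem_setOf_eq, Set.mem_singleton_iff, Prod.mk.injEq]
      constructor
      · rintro ⟨h1, -⟩
        exact hTlu n m d A v B₀ hA hB₀q.1 hB₀o u' u z' z y' y h1 hT
      · rintro ⟨rfl, rfl, rfl⟩
        exact ⟨hT, hrng _ _ _ hT⟩
    rw [this, Set.ncard_singleton]
    exact odd_one
  · intro h
    rw [← Nat.not_odd_iff_even, hpar]
    have : TS A v d s B₀ = ∅ := by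
      rw [Set.eq_empty_iff_forall_notMem]
      rintro ⟨u, z, y⟩ ⟨hT, -⟩
      obtain ⟨c, hc⟩ := hTln n m d A v B₀ hB₀q.1 hB₀o u z y hT
      exact absurd hc (not_le.2 (h c))
    rw [this, Set.ncard_empty]
    exact Nat.not_odd_zero
  · intro B hB i j
    refine (hBb B hB i j).trans_lt (exp_ok s _ ?_)
    nlinarith [Nat.zero_le s, Nat.zero_le (s * s * s)]
  · intro B hB
    obtain ⟨h1, -, -, h4⟩ := hCet m (GG B) (GG_symm B) (hGgp m B hB.1)
    obtain ⟨Y, hY⟩ := h1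
    refine ⟨Y, hY, fun i j => ?_⟩
    have h5 := G_bound hm B _ hb1 (hBb B hB)
    have h6 : (1 : ℤ) ≤ 2 ^ s * (2 ^ (s * s + s)) ^ 2 := by
      have := one_le_pow₀ (n := 2) hb1
      nlinarith
    have h7 := h4 _ h6 h5 Y hY i j
    refine h7.trans_lt ?_
    have h8 : ((2 : ℤ) ^ s * (2 ^ (s * s + s)) ^ 2) ^ m ≤ (2 ^ s * (2 ^ (s * s + s)) ^ 2) ^ s :=
      pow_le_pow_right₀ h6 hm
    have h9 := fact_le_two s m hm
    have h10 : (m.factorial : ℤ) * ((2 : ℤ) ^ s * (2 ^ (s * s + s)) ^ 2) ^ m ≤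
        2 ^ (s * s) * (2 ^ s * (2 ^ (s * s + s)) ^ 2) ^ s := by gcongr
    have h11 : (2 : ℤ) ^ (s * s) * (2 ^ s * (2 ^ (s * s + s)) ^ 2) ^ s =
        2 ^ (s * s + (s + (s * s + s) * 2) * s) := by
      rw [← pow_mul, ← pow_add, ← pow_mul, ← pow_add]
    rw [h11] at h10
    refine h10.trans_lt (exp_ok s _ ?_)
    nlinarith [Nat.zero_le s, Nat.zero_le (s * s * s)]
  · intro B hB Y Y' hY hY'
    exact (hCet m (GG B) (GG_symm B) (hGgp m B hB)).2.1 Y Y' hY hY'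
  · intro B hB Y hY i hi
    exact (hCet m (GG B) (GG_symm B) (hGgp m B hB)).2.2.1 Y hY i hi
  · intro B B' hB'
    exact (hInc m m B B' hB').1
  · intro B B' hB' X X' h1 h2 h3 h4
    exact (hInc m m B B' hB').2.1 X X' h1 h2 h3 h4
  · intro B B' hB hB' X h1 h2 i j
    have h := (hInc m m B B' hB'.1).2.2 _ hb1 (hBb B hB) (hBb B' hB') X h1 h2 i j
    refine h.trans_lt ?_
    have h8 : ((2 : ℤ) ^ (s * s + s)) ^ m ≤ (2 ^ (s * s + s)) ^ s := pow_le_pow_right₀ hb1 hm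
    have h9 := fact_le_two s m hm
    have h12 := nat_le_two s m hm
    have h10 : (m : ℤ) * 2 ^ (s * s + s) * ((m.factorial : ℤ) * (2 ^ (s * s + s)) ^ m) ≤
        2 ^ s * 2 ^ (s * s + s) * (2 ^ (s * s) * (2 ^ (s * s + s)) ^ s) := by gcongr
    have h11 : (2 : ℤ) ^ s * 2 ^ (s * s + s) * (2 ^ (s * s) * (2 ^ (s * s + s)) ^ s) =
        2 ^ (s + (s * s + s) + (s * s + (s * s + s) * s)) := by
      rw [← pow_mul, ← pow_add, ← pow_add, ← pow_add]
    rw [h11] at h10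
    refine h10.trans_lt (exp_ok s _ ?_)
    nlinarith [Nat.zero_le s, Nat.zero_le (s * s * s)]
  · intro B
    exact (hIna m n m B A hA).1
  · intro B X X'
    exact (hIna m n m B A hA).2.1 X X'
  · intro B hB X hX i j
    have h := (hIna m n m B A hA).2.2 (2 ^ s) (2 ^ (s * s + s)) ha1 (by linarith)
      (fun i j => (hAe i j).le) (hBb B hB) X hX i j
    refine h.trans_lt ?_
    have hn := hnm.trans hm
    have h9 := fact_le_two s n hn
    have h12 := nat_le_two s m hm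
    have h13 := nat_le_two s n hn
    have h14 : (1 : ℤ) ≤ 2 ^ s * (2 ^ s) ^ 2 := by
      have := one_le_pow₀ (n := 2) ha1
      nlinarith
    have h8 : ((2 : ℤ) ^ s * (2 ^ s) ^ 2) ^ n ≤ (2 ^ s * (2 ^ s) ^ 2) ^ s :=
      pow_le_pow_right₀ h14 hn
    have h15 : ((m : ℤ) * (2 ^ s) ^ 2) ^ n ≤ (2 ^ s * (2 ^ s) ^ 2) ^ n := by gcongr
    have h10 : (n : ℤ) * (m * 2 ^ s * 2 ^ (s * s + s)) *
        ((n.factorial : ℤ) * (m * (2 ^ s) ^ 2) ^ n) ≤
        2 ^ s * (2 ^ s * 2 ^ s * 2 ^ (s * s + s)) * (2 ^ (s * s) * (2 ^ s * (2 ^ s) ^ 2) ^ s) := by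
      have := h15.trans h8
      gcongr
    have h11 : (2 : ℤ) ^ s * (2 ^ s * 2 ^ s * 2 ^ (s * s + s)) *
        (2 ^ (s * s) * (2 ^ s * (2 ^ s) ^ 2) ^ s) =
        2 ^ (s + (s + s + (s * s + s)) + (s * s + (s + s * 2) * s)) := by
      simp only [← pow_mul, ← pow_add]
    rw [h11] at h10
    refine h10.trans_lt (exp_ok s _ ?_)
    nlinarith [Nat.zero_le s, Nat.zero_le (s * s * s)]
  · intro i hi
    refine (pow_le_s s (4 * d) i (hi.trans hm) hD).trans_lt (exp_ok s _ ?_)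
    nlinarith [Nat.zero_le s, Nat.zero_le (s * s * s)]

end Pool.Agent.LAT.H72
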