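import Pool.Agent.Helper72_LAT.Final
import Pool.Agent.Helper72_LAT.FNC
import Pool.Agent.Helper27_LAT.PHF
import Pool.Agent.Helper45_LAT.OPT
import Pool.Agent.Helper41_LAT.GDW
import Pool.Agent.Helper10_LAT.QMK
import Pool.Agent.Helper58_LAT.SQS
import Pool.Agent.Helper80_LAT.NPL
import Pool.Agent.Helper53_LAT.COV
import Pool.Agent.Helper38_LAT.RDU
import Pool.Agent.Helper65_LAT.TLU
import Pool.Agent.Helper41_LAT.TLE
import Pool.Agent.Helper3_LAT.BNY
import Pool.Agent.Helper58_LAT.FIB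
import Pool.Agent.Helper24_LAT.CSF
import Pool.Agent.Helper16_LAT.FBP
import Pool.Agent.Helper81_LAT.EVU
import Pool.Agent.Helper29_LAT.EVW
import Pool.Agent.Helper47_LAT.UNQ
import Pool.Agent.Helper29_LAT.TLN
import Pool.Agent.Helper47_LAT.BNU
import Pool.Agent.Helper85_LAT.PHS
import Pool.Agent.Helper62_LAT.EXB
import Pool.Agent.Helper25_LAT.DSR

/-!
# Squad LAT, part 2, block M: assembly
-/

set_option autoImplicit false

namespace Pool.Agent.LAT.H72

open Matrix Pool.Agent.LAT

theorem gdw : GdwStmt := H41.gdw bas pos gsd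
theorem rdu : RduStmt := H38.rdu hnm
theorem fib : FibStmt := H58.fib hne hnu hnd pos
theorem fbp : FbpStmt := H16.fbp

theorem unq : UnqStmt := H47.unq gdw tor pos fis
theorem bnu : BnuStmt := H47.bnu hnm

theorem phs : PhsStmt := H85.phs sub pos
theorem phf : PhfStmt := H27.phf bnd hne hnd phs
theorem opt : OptStmt := H45.opt phs phf
theorem evu : EvuStmt := H81.evu phs phf par
theorem evw : EvwStmt := H29.evw phs phf par

/-- the orthogonal projection -/
theorem prj : PrjStmt := by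
  intro m V w
  let e : EuclideanSpace ℝ (Fin m) ≃ₗ[ℝ] (Fin m → ℝ) := WithLp.linearEquiv 2 ℝ (Fin m → ℝ)
  let V' : Submodule ℝ (EuclideanSpace ℝ (Fin m)) :=
    V.comap (e : EuclideanSpace ℝ (Fin m) →ₗ[ℝ] (Fin m → ℝ))
  have hd : ∀ x y : EuclideanSpace ℝ (Fin m), inner ℝ x y = e y ⬝ᵥ e x := by
    intro x y
    rfl
  have h0 : ∃ p ∈ V', e.symm w - p ∈ V'ᗮ := by
    refine ⟨V'.starProjection (e.symm w), V'.starProjection_apply_mem _, ?_⟩
    exact V'.sub_starProjection_mem_orthogonal _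
  obtain ⟨p, hp, hq⟩ := h0
  refine ⟨e p, hp, fun q hqV => ?_⟩
  have h1 := (Submodule.mem_orthogonal V' _).1 hq (e.symm q) (by
    show e (e.symm q) ∈ V
    rw [LinearEquiv.apply_symm_apply]
    exact hqV)
  rw [hd, LinearEquiv.apply_symm_apply, map_sub, LinearEquiv.apply_symm_apply] at h1
  exact h1

theorem exb : ExbStmt := H62.exb
theorem qmk : QmkStmt := H10.qmk exb bas pos mnk
theorem sqs : SqsStmt := H58.sqs qmk gdw pos
theorem npl : NplStmt := H80.npl prj
theorem cov : CovStmt := H53.cov sqs npl phs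
theorem dsr : DsrStmt := H25.dsr ggp
theorem tlu : TluStmt := H65.tlu dsr rdu unq ina ggp
theorem tle : TleStmt := H41.tle dsr rdu ggp
theorem tln : TlnStmt := H29.tln dsr cov ggp
theorem bny : BnyStmt := H3.bny dsr
theorem csf : CsfStmt := H24.csf phs phf hnd hnu chn ggp

/-- The interface of part 2, without hypotheses. -/
theorem fncF : FncStmt :=
  fnc bnd hne hnu hnd ggp cet inc ina phs opt evu evw dsr tlu tle tln bnu bny fib csf fbp

end Pool.Agent.LAT.H72
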