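import Pool.Agent.LAT.StmtsM
import Pool.Agent.Helper58_PAR.Split

/-!
# Squad LAT, row PAR: parity of the number of chains
-/

set_option autoImplicit false

namespace Pool.Agent.LAT.H72

open Pool.Agent.PAR Pool.Agent.PAR.H58

theorem chains_eq {α : Type} [SemilatticeSup α] (P : Set α) :
    {l : List α | (∀ x ∈ l, x ∈ P) ∧ l.Pairwise (· < ·)} = Chains P (· ≤ ·) := by
  ext l
  simp only [Chains, Set.mem_setOf_eq]
  refine and_congr_right fun _ => ?_
  exact List.Pairwise.iff (fun a b => lt_iff_le_and_ne)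

theorem par : ParStmt := by
  classical
  intro α _ P hP T hT hj
  have hfin : (Chains P (· ≤ ·)).Finite := by
    refine chains_finite hP P.ncard fun l hl => ?_
    have hnd : l.Nodup := hl.2.imp fun h => h.2
    rw [← List.toFinset_card_of_nodup hnd, Set.ncard_eq_toFinset_card P hP]
    refine Finset.card_le_card fun x hx => ?_
    simpa using hl.1 x (by simpa using hx)
  refine ⟨by rw [chains_eq]; exact hfin, ?_⟩
  have h := odd_join (S := P) (r := (· ≤ ·)) hfin (fun u _ => le_refl u)
    (fun u _ v _ => le_antisymm) (fun u _ v _ w _ => le_trans) hT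
    (fun y hy => ⟨y ⊔ T, hj y hy, le_sup_left, le_sup_right, fun w _ h1 h2 => sup_le h1 h2⟩)
  have e : {l : List α | l ≠ [] ∧ (∀ x ∈ l, x ∈ P) ∧ l.Pairwise (· < ·)} =
      {l | l ∈ Chains P (· ≤ ·) ∧ l ≠ []} := by
    rw [← chains_eq]
    ext l
    simp only [Set.mem_setOf_eq]
    exact and_comm
  rw [e]
  exact h

end Pool.Agent.LAT.H72
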