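import Pool.Agent.Helper58_PAR.Split
import Pool.Agent.LAT.StmtsM

/-!
# Signed number of chains

If every element `y` of a finite poset has a join with `y₀`, then the number of the chains with an
odd number of elements is the number of the nonempty chains with an even number of elements plus one.
-/

set_option autoImplicit false

namespace Pool.Agent.LAT.H72

open Pool.Agent.PAR Pool.Agent.PAR.H58

section split

variable {α : Type} {S : Set α} {r : α → α → Prop} {c : α → Prop} {p : List α → α}

/-- the toggle is an involution which changes the length by one -/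
theorem tog_props
    (has : ∀ u ∈ S, ∀ v ∈ S, r u v → r v u → u = v)
    (hc : ∀ u ∈ S, ∀ v ∈ S, r u v → c u → c v)
    (hp : ∀ A ∈ Chains S r, (∀ a ∈ A, ¬ c a) → p A ∈ S ∧ c (p A) ∧ (∀ a ∈ A, r a (p A)) ∧
      ∀ b ∈ S, c b → (∀ a ∈ A, r a b) → r (p A) b) :
    (∀ l ∈ Chains S r, tog c p l ∈ Chains S r) ∧ (∀ l ∈ Chains S r, tog c p (tog c p l) = l) ∧
      ∀ l ∈ Chains S r, (tog c p l).length = l.length + 1 ∨ (tog c p l).length + 1 = l.length := by
  classical
  have key : ∀ A B : List α, (∀ a ∈ A, ¬ c a) → (∀ b ∈ B, c b) →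
      tog c p (A ++ B) = A ++ if B.head? = some (p A) then B.tail else p A :: B := by
    intro A B hA hB
    obtain ⟨h1, h2⟩ := split_append hA hB
    unfold tog
    rw [h1, h2]
  have step : ∀ l ∈ Chains S r, ∃ A B, l = A ++ B ∧ (∀ a ∈ A, ¬ c a) ∧ (∀ b ∈ B, c b) ∧
      A ∈ Chains S r ∧ B ∈ Chains S r ∧ (∀ a ∈ A, ∀ b ∈ B, r a b ∧ a ≠ b) ∧ p A ∈ S ∧
      c (p A) ∧ (∀ a ∈ A, r a (p A)) ∧ ∀ b ∈ B, r (p A) b := by
    intro l hl
    obtain ⟨A, B, rfl, hA, hB⟩ := exists_split hc hl
    obtain ⟨h1, h2, h3⟩ := mem_chains_append.1 hl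
    obtain ⟨h4, h5, h6, h7⟩ := hp A h1 hA
    exact ⟨A, B, rfl, hA, hB, h1, h2, h3, h4, h5, h6, fun b hb =>
      h7 b (h2.1 b hb) (hB b hb) (fun a ha => (h3 a ha b hb).1)⟩
  refine ⟨?_, ?_, ?_⟩
  · intro l hl
    obtain ⟨A, B, rfl, hA, hB, h1, h2, h3, h4, h5, h6, h7⟩ := step l hl
    rw [key A B hA hB]
    split_ifs with h
    · rw [mem_chains_append]
      rcases B with _ | ⟨b, B⟩
      · exact ⟨h1, h2, h3⟩
      · exact ⟨h1, (mem_chains_cons.1 h2).2.1, fun a ha b' hb' => h3 a ha b' (by
          simp only [List.tail_cons] at hb'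
          simp [hb'])⟩
    · rw [mem_chains_append, mem_chains_cons]
      refine ⟨h1, ⟨h4, h2, fun b hb => ⟨h7 b hb, ?_⟩⟩, ?_⟩
      · rintro rfl
        apply h
        rcases B with _ | ⟨b, B⟩
        · simp at hb
        · rcases List.mem_cons.1 hb with h8 | h8
          · rw [h8]; rfl
          · have h9 := ((mem_chains_cons.1 h2).2.2 _ h8).1
            have h10 := has _ (mem_chains_cons.1 h2).1 _ h4 h9 (h7 b (by simp))
            rw [h10]; rfl
      · intro a ha b hb
        rcases List.mem_cons.1 hb with rfl | hb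
        · exact ⟨h6 a ha, fun h8 => hA a ha (h8 ▸ h5)⟩
        · exact h3 a ha b hb
  · intro l hl
    obtain ⟨A, B, rfl, hA, hB, h1, h2, h3, h4, h5, h6, h7⟩ := step l hl
    rw [key A B hA hB]
    split_ifs with h
    · rcases B with _ | ⟨b, B⟩
      · simp at h
      · rw [List.tail_cons, key A B hA (fun b' hb' => hB b' (by simp [hb']))]
        have hb : b = p A := by simpa using h
        rw [if_neg, hb]
        intro h8
        rcases B with _ | ⟨b', B⟩
        · simp at h8
        · have h9 : b' = p A := by simpa using h8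
          exact ((mem_chains_cons.1 h2).2.2 b' (by simp)).2 (hb.trans h9.symm)
    · rw [key A (p A :: B) hA (fun b hb => by
        rcases List.mem_cons.1 hb with rfl | hb
        · exact h5
        · exact hB b hb), if_pos (by simp), List.tail_cons]
  · intro l hl
    obtain ⟨A, B, rfl, hA, hB, h1, h2, h3, h4, h5, h6, h7⟩ := step l hl
    rw [key A B hA hB]
    split_ifs with h10
    · right
      rcases B with _ | ⟨b, B⟩
      · simp at h10
      · simp only [List.tail_cons, List.length_append, List.length_cons]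
        omega
    · left
      simp only [List.length_append, List.length_cons]
      omega

/-- an involution which changes the length by one balances the numbers of the lists of even and of
odd length -/
theorem balance {A : Set (List α)} (f : List α → List α) (hf : ∀ l ∈ A, f l ∈ A)
    (hff : ∀ l ∈ A, f (f l) = l)
    (hlen : ∀ l ∈ A, (f l).length = l.length + 1 ∨ (f l).length + 1 = l.length) :
    {l ∈ A | Odd l.length}.ncard = {l ∈ A | Even l.length}.ncard := by
  refine Set.ncard_congr (fun l _ => f l) ?_ ?_ ?_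
  · rintro l ⟨h1, h2⟩
    refine ⟨hf l h1, ?_⟩
    rcases hlen l h1 with h | h
    · rw [h]
      exact h2.add_one
    · rw [← h] at h2
      rcases Nat.even_or_odd (f l).length with h3 | h3
      · exact h3
      · exact absurd h3.add_one (Nat.not_even_iff_odd.2 h2)
  · rintro l l' ⟨h1, -⟩ ⟨h1', -⟩ h
    rw [← hff l h1, ← hff l' h1', h]
  · rintro l ⟨h1, h2⟩
    refine ⟨f l, ⟨hf l h1, ?_⟩, hff l h1⟩
    rcases hlen l h1 with h | h
    · rw [h]
      exact h2.add_one
    · rw [← h] at h2
      rcases Nat.even_or_odd (f l).length with h3 | h3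
      · exact absurd h2 (Nat.not_even_iff_odd.2 h3.add_one)
      · exact h3

/-- **Signed count.**  If every element `y` of a poset with finitely many chains has a join with `y₀`,
then the number of the chains of odd length is the number of the nonempty chains of even length plus
one. -/
theorem sgn_join (hfin : (Chains S r).Finite) (hre : ∀ u ∈ S, r u u)
    (has : ∀ u ∈ S, ∀ v ∈ S, r u v → r v u → u = v)
    (htr : ∀ u ∈ S, ∀ v ∈ S, ∀ w ∈ S, r u v → r v w → r u w) {y₀ : α} (hy : y₀ ∈ S)
    (hj : ∀ y ∈ S, ∃ z ∈ S, r y z ∧ r y₀ z ∧ ∀ w ∈ S, r y w → r y₀ w → r z w) :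
    {l ∈ Chains S r | Odd l.length}.ncard =
      {l ∈ Chains S r | l ≠ [] ∧ Even l.length}.ncard + 1 := by
  classical
  have hj' : ∀ y, ∃ z, y ∈ S → z ∈ S ∧ r y z ∧ r y₀ z ∧ ∀ w ∈ S, r y w → r y₀ w → r z w := by
    intro y
    by_cases h : y ∈ S
    · obtain ⟨z, h1, h2⟩ := hj y h
      exact ⟨z, fun _ => ⟨h1, h2⟩⟩
    · exact ⟨y, fun h' => absurd h' h⟩
  choose j hj0 using hj'
  have hT := tog_props (S := S) (r := r) (c := fun u => r y₀ u) (p := fun A => match A.getLast? with
    | some a => j a
    | none => y₀) has (fun u hu v hv h h' => htr y₀ hy u hu v hv h' h) (by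
    intro A hA hAc
    rcases List.eq_nil_or_concat A with rfl | ⟨A, a, rfl⟩
    · exact ⟨hy, hre _ hy, by simp, fun b _ hb _ => hb⟩
    · rw [List.concat_eq_append] at hA hAc ⊢
      have haS : a ∈ S := hA.1 a (by simp)
      obtain ⟨h1, h2, h3, h4⟩ := hj0 a haS
      have e : (A ++ [a]).getLast? = some a := by simp
      simp only [e]
      refine ⟨h1, h3, ?_, fun b hb hb' hb'' => h4 b hb (hb'' a (by simp)) hb'⟩
      intro u hu
      rcases List.mem_append.1 hu with hu' | hu'
      · have h5 := (mem_chains_append.1 hA).2.2 u hu' a (by simp)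
        exact htr u (hA.1 u hu) a haS _ h1 h5.1 h2
      · rw [List.mem_singleton] at hu'
        rw [hu']
        exact h2)
  rw [balance _ hT.1 hT.2.1 hT.2.2]
  have hnil : ([] : List α) ∈ Chains S r := ⟨by simp, List.Pairwise.nil⟩
  have e : {l ∈ Chains S r | Even l.length} =
      insert [] {l ∈ Chains S r | l ≠ [] ∧ Even l.length} := by
    ext l
    simp only [Set.mem_setOf_eq, Set.mem_insert_iff]
    constructor
    · rintro ⟨h1, h2⟩
      by_cases h : l = []
      · exact Or.inl h
      · exact Or.inr ⟨h1, h, h2⟩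
    · rintro (rfl | ⟨h1, -, h2⟩)
      · exact ⟨hnil, by simp⟩
      · exact ⟨h1, h2⟩
  rw [e, Set.ncard_insert_of_notMem (fun h => h.2.1 rfl) (hfin.subset fun l hl => hl.1)]

end split

end Pool.Agent.LAT.H72
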