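import Pool.Agent.LAT.StmtsC
import Pool.Agent.Helper72_LAT.PAR
import Pool.Agent.Helper72_LAT.SGN

/-!
# Signed versions of the rows PAR, EVU and EVW

The chains with an odd number of elements and the chains with an even number of elements (the empty
one included) are equally many.
-/

set_option autoImplicit false

open Matrix

namespace Pool.Agent.LAT.H72

open Pool.Agent.PAR Pool.Agent.PAR.H58

/-- the odd and the even chains in `P` are equally many -/
def Bal {α : Type} [Preorder α] (P : Set α) : Prop :=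
  {l ∈ chns P | Odd l.length}.ncard = {l ∈ chns P | Even l.length}.ncard

/-- PAR, signed -/
def ParSStmt : Prop := ∀ (α : Type) [SemilatticeSup α] (P : Set α), P.Finite → ∀ T ∈ P,
  (∀ x ∈ P, x ⊔ T ∈ P) → (chns P).Finite ∧ Bal P

/-- EVU, signed -/
def EvuSStmt : Prop := ∀ (m : ℕ) (L : Submodule ℤ (Fin m → ℤ)) (D : ℕ)
  (M : Submodule ℤ (Fin m → ℤ)), M ≤ L → 1 ≤ ph D M →
  (chns (US L D M)).Finite ∧ (US L D M = ∅ ∨ Bal (US L D M))

/-- EVW, signed -/
def EvwSStmt : Prop := ∀ (m D : ℕ) (M : Submodule ℤ (Fin m → ℤ)), 1 ≤ ph D M →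
  (chns (WS D M)).Finite ∧ (WS D M = ∅ ∨ Bal (WS D M))

/-- the chains in the empty set -/
theorem chns_nil {α : Type} [Preorder α] : chns (∅ : Set α) = {[]} := by
  ext l
  rw [Set.mem_singleton_iff]
  constructor
  · rintro ⟨hl, -⟩
    apply List.eq_nil_iff_forall_not_mem.2
    intro x hx
    exact hl x hx
  · rintro rfl
    exact ⟨fun x hx => absurd hx List.not_mem_nil, List.Pairwise.nil⟩

/-- the empty set: one even chain, no odd chain -/
theorem empty_even {α : Type} [Preorder α] :
    {l ∈ chns (∅ : Set α) | Even l.length}.ncard = 1 := by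
  have : {l ∈ chns (∅ : Set α) | Even l.length} = {[]} := by
    rw [chns_nil]
    ext l
    simp only [Set.mem_setOf_eq, Set.mem_singleton_iff]
    constructor
    · exact fun h => h.1
    · rintro rfl
      exact ⟨rfl, by simp⟩
  rw [this, Set.ncard_singleton]

theorem empty_odd {α : Type} [Preorder α] :
    {l ∈ chns (∅ : Set α) | Odd l.length}.ncard = 0 := by
  have : {l ∈ chns (∅ : Set α) | Odd l.length} = ∅ := by
    rw [chns_nil]
    ext l
    simp only [Set.mem_setOf_eq, Set.mem_singleton_iff, Set.mem_empty_iff_false, iff_false]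
    rintro ⟨rfl, h⟩
    simp at h
  rw [this, Set.ncard_empty]

theorem parS : ParSStmt := by
  classical
  intro α _ P hP T hT hjT
  have hfin : (Chains P (· ≤ ·)).Finite := by
    refine chains_finite hP P.ncard fun l hl => ?_
    have hnd : l.Nodup := hl.2.imp fun h => h.2
    rw [← List.toFinset_card_of_nodup hnd, Set.ncard_eq_toFinset_card P hP]
    refine Finset.card_le_card fun x hx => ?_
    simpa using hl.1 x (by simpa using hx)
  have he : chns P = Chains P (· ≤ ·) := chains_eq P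
  refine ⟨by rw [he]; exact hfin, ?_⟩
  have h := sgn_join (S := P) (r := (· ≤ ·)) hfin (fun u _ => le_refl u)
    (fun u _ v _ => le_antisymm) (fun u _ v _ w _ => le_trans) hT
    (fun y hy => ⟨y ⊔ T, hjT y hy, le_sup_left, le_sup_right, fun w _ h1 h2 => sup_le h1 h2⟩)
  unfold Bal
  rw [he, h]
  have e : {l ∈ Chains P (· ≤ ·) | Even l.length} =
      insert [] {l ∈ Chains P (· ≤ ·) | l ≠ [] ∧ Even l.length} := by
    ext l
    simp only [Set.mem_setOf_eq, Set.mem_insert_iff]
    constructor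
    · rintro ⟨h1, h2⟩
      by_cases h : l = []
      · exact Or.inl h
      · exact Or.inr ⟨h1, h, h2⟩
    · rintro (rfl | ⟨h1, -, h2⟩)
      · exact ⟨⟨by simp, List.Pairwise.nil⟩, by simp⟩
      · exact ⟨h1, h2⟩
  rw [e, Set.ncard_insert_of_notMem (fun h => h.2.1 rfl) (hfin.subset fun l hl => hl.1)]

theorem evuS (hPhs : PhsStmt) (hPhf : PhfStmt) : EvuSStmt := by
  intro m L D M hML hM1
  obtain ⟨-, h0, -, hsub⟩ := hPhs m D
  obtain ⟨U, hU⟩ : ∃ U, U = US L D M := ⟨_, rfl⟩
  have hmem : ∀ N, N ∈ U ↔ M < N ∧ N ≤ L ∧ ph D M ≤ ph D N := by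
    intro N
    rw [hU]
    exact Iff.rfl
  have hUf : U.Finite := by
    apply (hPhf m L D).subset
    intro N hN
    obtain ⟨_, h2, h3⟩ := (hmem N).1 hN
    exact ⟨h2, hM1.trans h3⟩
  rw [← hU]
  by_cases hne : U = ∅
  · refine ⟨?_, Or.inl hne⟩
    rw [hne, chns_nil]
    exact Set.finite_singleton _
  · obtain ⟨T, hT, hTmax⟩ := Set.exists_max_image U (ph D) hUf (Set.nonempty_iff_ne_empty.2 hne)
    obtain ⟨hT1, hT2, hT3⟩ := (hmem T).1 hT
    have hsup : ∀ N ∈ U, N ⊔ T ∈ U := by
      intro N hN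
      obtain ⟨hN1, hN2, hN3⟩ := (hmem N).1 hN
      rw [hmem]
      refine ⟨hN1.trans_le le_sup_left, sup_le hN2 hT2, ?_⟩
      have hI : ph D (N ⊓ T) ≤ ph D T := by
        have hle : M ≤ N ⊓ T := le_inf hN1.le hT1.le
        rcases hle.eq_or_lt with h | h
        · rw [← h]
          exact hT3
        · by_cases h2 : ph D M ≤ ph D (N ⊓ T)
          · exact hTmax _ ((hmem _).2 ⟨h, inf_le_left.trans hN2, h2⟩)
          · push Not at h2
            exact h2.le.trans hT3
      have h3 := hsub N T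
      have h4 : ph D (N ⊓ T) * ph D (N ⊔ T) ≤ ph D T * ph D (N ⊔ T) :=
        mul_le_mul_of_nonneg_right hI (h0 _)
      have hTpos : 0 < ph D T := lt_of_lt_of_le zero_lt_one (hM1.trans hT3)
      have h5 : ph D T * ph D N ≤ ph D T * ph D (N ⊔ T) := by
        rw [mul_comm]
        exact h3.trans h4
      exact hN3.trans (le_of_mul_le_mul_left h5 hTpos)
    obtain ⟨hf, hbal⟩ := parS (Submodule ℤ (Fin m → ℤ)) U hUf T hT hsup
    exact ⟨hf, Or.inr hbal⟩

theorem evwS (hPhs : PhsStmt) (hPhf : PhfStmt) : EvwSStmt := by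
  classical
  intro m D M hM
  have hsub := (hPhs m D).2.2.2
  have hW : (WS D M).Finite := by
    refine Set.Finite.subset (hPhf m M D) ?_
    rintro N ⟨h1, h2⟩
    exact ⟨h1.le, (hM.trans h2.le)⟩
  -- the reversal
  let f : List (Submodule ℤ (Fin m → ℤ)) → List (Submodule ℤ (Fin m → ℤ))ᵒᵈ :=
    fun l => (l.map OrderDual.toDual).reverse
  have hf : Function.Injective f := by
    intro a b h
    have h1 := List.reverse_injective h
    exact List.map_injective_iff.2 OrderDual.toDual.injective h1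
  have hlen : ∀ l, (f l).length = l.length := by
    intro l
    simp [f]
  let P : Set (Submodule ℤ (Fin m → ℤ))ᵒᵈ := {x | OrderDual.ofDual x ∈ WS D M}
  have hfm : ∀ l, l ∈ chns (WS D M) ↔ f l ∈ chns P := by
    intro l
    refine and_congr ?_ ?_
    · constructor
      · intro h x hx
        rw [List.mem_reverse, List.mem_map] at hx
        obtain ⟨a, ha, rfl⟩ := hx
        exact h a ha
      · intro h x hx
        have := h (OrderDual.toDual x) (by
          rw [List.mem_reverse, List.mem_map]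
          exact ⟨x, hx, rfl⟩)
        exact this
    · rw [List.pairwise_reverse, List.pairwise_map]
      exact Iff.rfl
  have hsurj : ∀ l' : List (Submodule ℤ (Fin m → ℤ))ᵒᵈ, ∃ l, f l = l' := by
    intro l'
    refine ⟨(l'.map OrderDual.ofDual).reverse, ?_⟩
    simp only [f, List.map_reverse, List.map_map, List.reverse_reverse]
    have : (OrderDual.toDual ∘ OrderDual.ofDual :
      (Submodule ℤ (Fin m → ℤ))ᵒᵈ → (Submodule ℤ (Fin m → ℤ))ᵒᵈ) = id := by
      funext x
      rfl
    rw [this, List.map_id]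
  rcases Set.eq_empty_or_nonempty (WS D M) with he | hne
  · refine ⟨?_, Or.inl he⟩
    rw [he, chns_nil]
    exact Set.finite_singleton _
  obtain ⟨T, hT, hmax⟩ := Set.exists_max_image (WS D M) (ph D) hW hne
  have hjoin : ∀ N ∈ WS D M, N ⊓ T ∈ WS D M := by
    intro N hN
    have hTp : 0 < ph D T := lt_of_lt_of_le one_pos (hM.trans hT.2.le)
    have hJ : ph D (N ⊔ T) ≤ ph D T := by
      have hle : N ⊔ T ≤ M := sup_le hN.1.le hT.1.le
      rcases eq_or_lt_of_le hle with h | h
      · rw [h]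
        exact hT.2.le
      · rcases le_or_gt (ph D (N ⊔ T)) (ph D M) with h2 | h2
        · exact h2.trans hT.2.le
        · exact hmax _ ⟨h, h2⟩
    have h1 := hsub N T
    have h2 : ph D (N ⊓ T) * ph D (N ⊔ T) ≤ ph D (N ⊓ T) * ph D T :=
      mul_le_mul_of_nonneg_left hJ ((hPhs m D).2.1 _)
    have h3 : ph D N ≤ ph D (N ⊓ T) := le_of_mul_le_mul_right (h1.trans h2) hTp
    exact ⟨lt_of_le_of_lt inf_le_left hN.1, lt_of_lt_of_le hN.2 h3⟩
  have hPfin : P.Finite := by
    have : P = OrderDual.toDual '' (WS D M) := by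
      ext x
      constructor
      · intro hx
        exact ⟨OrderDual.ofDual x, hx, rfl⟩
      · rintro ⟨y, hy, rfl⟩
        exact hy
    rw [this]
    exact hW.image _
  obtain ⟨hPf, hbal⟩ := parS (Submodule ℤ (Fin m → ℤ))ᵒᵈ P hPfin (OrderDual.toDual T) hT
    (fun x hx => hjoin (OrderDual.ofDual x) hx)
  have himg : ∀ p : ℕ → Prop, f '' {l ∈ chns (WS D M) | p l.length} =
      {l ∈ chns P | p l.length} := by
    intro p
    ext l'
    constructor
    · rintro ⟨l, ⟨h1, h2⟩, rfl⟩
      exact ⟨(hfm l).1 h1, by rw [hlen]; exact h2⟩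
    · rintro ⟨h1, h2⟩
      obtain ⟨l, rfl⟩ := hsurj l'
      exact ⟨l, ⟨(hfm l).2 h1, by rw [hlen] at h2; exact h2⟩, rfl⟩
  refine ⟨?_, Or.inr ?_⟩
  · refine Set.Finite.of_finite_image (f := f) ?_ (hf.injOn)
    refine hPf.subset ?_
    rintro _ ⟨l, hl, rfl⟩
    exact (hfm l).1 hl
  · unfold Bal at hbal ⊢
    rw [← himg, ← himg, Set.ncard_image_of_injective _ hf, Set.ncard_image_of_injective _ hf]
      at hbal
    exact hbal

end Pool.Agent.LAT.H72
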