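import Pool.Agent.Helper72_LAT.FNC
import Pool.Agent.Helper72_LAT.BAL

/-!
# Signed number of the certificates of part 2

The sign of a certificate is given by the parity of the number of the elements of its chain.
-/

set_option autoImplicit false

namespace Pool.Agent.LAT.H72

open Matrix

/-- FIB, signed: the certificates with the marked element `B` -/
def FibSStmt : Prop := ∀ (n m d s : ℕ) (A : Matrix (Fin n) (Fin m) ℤ) (v : Fin m → ℤ)
  (B : Matrix (Fin m) (Fin m) ℤ), PQ (rows A) (4 * d) B →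
  {q ∈ CS A v d s | q.1.getD q.2.1 0 = B ∧ Odd q.1.length}.ncard =
    ({l ∈ chns (WS (4 * d) (rows B)) | Even l.length}.ncard *
        {l ∈ chns (US (rows A) (4 * d) (rows B)) | Even l.length}.ncard +
      {l ∈ chns (WS (4 * d) (rows B)) | Odd l.length}.ncard *
        {l ∈ chns (US (rows A) (4 * d) (rows B)) | Odd l.length}.ncard) *
      (TS A v d s B).ncard ∧
  {q ∈ CS A v d s | q.1.getD q.2.1 0 = B ∧ Even q.1.length}.ncard =
    ({l ∈ chns (WS (4 * d) (rows B)) | Even l.length}.ncard *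
        {l ∈ chns (US (rows A) (4 * d) (rows B)) | Odd l.length}.ncard +
      {l ∈ chns (WS (4 * d) (rows B)) | Odd l.length}.ncard *
        {l ∈ chns (US (rows A) (4 * d) (rows B)) | Even l.length}.ncard) *
      (TS A v d s B).ncard

/-- if all fibres but one are balanced, the difference is the difference in this fibre -/
theorem fiber_sgn {α β : Type} (S : Set α) (hS : S.Finite) (f : α → β) (p r : α → Prop)
    (b₀ : β) (h : ∀ b, b ≠ b₀ → {x ∈ S | f x = b ∧ p x}.ncard = {x ∈ S | f x = b ∧ r x}.ncard) :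
    {x ∈ S | p x}.ncard + {x ∈ S | f x = b₀ ∧ r x}.ncard =
      {x ∈ S | r x}.ncard + {x ∈ S | f x = b₀ ∧ p x}.ncard := by
  classical
  have hc : ∀ t : α → Prop, {x ∈ S | t x}.ncard = (hS.toFinset.filter t).card := by
    intro t
    rw [← Set.ncard_coe_finset]
    congr 1
    ext x
    simp
  have hsum : ∀ t : α → Prop, {x ∈ S | t x}.ncard =
      ∑ b ∈ insert b₀ (hS.toFinset.image f), {x ∈ S | f x = b ∧ t x}.ncard := by
    intro t
    rw [hc, Finset.card_eq_sum_card_fiberwise (f := f) (t := insert b₀ (hS.toFinset.image f))]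
    · refine Finset.sum_congr rfl fun b _ => ?_
      rw [hc, Finset.filter_filter]
      congr 1
      ext x
      simp only [Finset.mem_filter]
      tauto
    · intro x hx
      have hx' : x ∈ hS.toFinset.filter t := hx
      have h1 := (Finset.mem_filter.1 hx').1
      exact Finset.mem_coe.2 (Finset.mem_insert_of_mem (Finset.mem_image_of_mem f h1))
  have hb : b₀ ∈ insert b₀ (hS.toFinset.image f) := Finset.mem_insert_self _ _
  rw [hsum p, hsum r, ← Finset.add_sum_erase _ _ hb, ← Finset.add_sum_erase _ _ hb]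
  have e : ∑ b ∈ (insert b₀ (hS.toFinset.image f)).erase b₀, {x ∈ S | f x = b ∧ p x}.ncard =
      ∑ b ∈ (insert b₀ (hS.toFinset.image f)).erase b₀, {x ∈ S | f x = b ∧ r x}.ncard :=
    Finset.sum_congr rfl fun b hb => h b (Finset.ne_of_mem_erase hb)
  rw [e]
  ring

/-- the signed number of the certificates is the number of the tails of the optimal `M` -/
theorem signed (hPhs : PhsStmt) (hHne : HneStmt) (hHnu : HnuStmt) (hHnd : HndStmt)
    (hOpt : OptStmt) (hEvu : EvuSStmt) (hEvw : EvwSStmt) (hFib : FibSStmt) (hCsf : CsfStmt)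
    {n m d s : ℕ} (A : Matrix (Fin n) (Fin m) ℤ) (v : Fin m → ℤ) :
    ∃ B, PQ (rows A) (4 * d) B ∧ Opt (rows A) (4 * d) (rows B) ∧
      {q ∈ CS A v d s | Odd q.1.length}.ncard =
        {q ∈ CS A v d s | Even q.1.length}.ncard + (TS A v d s B).ncard := by
  obtain ⟨M, hM, hM1, huniq⟩ := hOpt m (rows A) (4 * d)
  obtain ⟨B₀, hB₀, rfl⟩ := hHne m M
  obtain ⟨-, -, hph, -⟩ := hPhs m (4 * d)
  have hpq : ∀ B, PQ (rows A) (4 * d) B ↔ IsHNF B ∧ rows B ≤ rows A ∧
      1 ≤ ph (4 * d) (rows B) := by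
    intro B
    unfold PQ
    refine and_congr_right fun hB => and_congr_right fun _ => ?_
    rw [hph, (hHnd m B hB).1, (hHnd m B hB).2]
  have hB₀q : PQ (rows A) (4 * d) B₀ := (hpq B₀).2 ⟨hB₀, hM.le, hM1⟩
  refine ⟨B₀, hB₀q, hM, ?_⟩
  have h := fiber_sgn (CS A v d s) (hCsf n m d s A v).1 (fun q => q.1.getD q.2.1 0)
    (fun q => Odd q.1.length) (fun q => Even q.1.length) B₀ ?_
  · obtain ⟨h1, h2⟩ := hFib n m d s A v B₀ hB₀q
    have hU : US (rows A) (4 * d) (rows B₀) = ∅ := by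
      rw [Set.eq_empty_iff_forall_notMem]
      rintro N ⟨h1, h2, h3⟩
      exact absurd h3 (not_le.2 (hM.up N h1 h2))
    have hW : WS (4 * d) (rows B₀) = ∅ := by
      rw [Set.eq_empty_iff_forall_notMem]
      rintro N ⟨h1, h2⟩
      exact absurd h2 (not_lt.2 (hM.down N h1))
    rw [hU, hW, empty_even, empty_odd] at h1 h2
    simp only [mul_one, mul_zero, one_mul, add_zero, zero_mul, zero_add] at h1 h2
    have h3 : {q ∈ CS A v d s | Odd q.1.length}.ncard +
        {q ∈ CS A v d s | q.1.getD q.2.1 0 = B₀ ∧ Even q.1.length}.ncard =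
        {q ∈ CS A v d s | Even q.1.length}.ncard +
        {q ∈ CS A v d s | q.1.getD q.2.1 0 = B₀ ∧ Odd q.1.length}.ncard := h
    rw [h1, h2, add_zero] at h3
    exact h3
  · intro B hB
    show {q ∈ CS A v d s | q.1.getD q.2.1 0 = B ∧ Odd q.1.length}.ncard =
      {q ∈ CS A v d s | q.1.getD q.2.1 0 = B ∧ Even q.1.length}.ncard
    by_cases hq : PQ (rows A) (4 * d) B
    · obtain ⟨e1, e2⟩ := hFib n m d s A v B hq
      rw [e1, e2]
      obtain ⟨h1, h2, h3⟩ := (hpq B).1 hq
      obtain ⟨-, hu⟩ := hEvu m (rows A) (4 * d) (rows B) h2 h3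
      obtain ⟨-, hw⟩ := hEvw m (4 * d) (rows B) h3
      rcases hu with hu | hu
      · rcases hw with hw | hw
        · exfalso
          have hopt : Opt (rows A) (4 * d) (rows B) := by
            refine ⟨h2, fun N hN hN' => ?_, fun N hN => ?_⟩
            · by_contra hlt
              have : N ∈ US (rows A) (4 * d) (rows B) := ⟨hN, hN', not_lt.1 hlt⟩
              rw [hu] at this
              exact this
            · by_contra hlt
              have : N ∈ WS (4 * d) (rows B) := ⟨hN, not_le.1 hlt⟩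
              rw [hw] at this
              exact this
          exact hB (hHnu m B B₀ h1 hB₀ (huniq _ hopt))
        · unfold Bal at hw
          rw [hw]
          ring
      · unfold Bal at hu
        rw [hu]
    · have : ∀ t : ℕ → Prop, {q ∈ CS A v d s | q.1.getD q.2.1 0 = B ∧ t q.1.length} = ∅ := by
        intro t
        rw [Set.eq_empty_iff_forall_notMem]
        rintro q ⟨h1, h2, -⟩
        exact hq (h2 ▸ h1.pq)
      rw [this, this]

/-- **The signed number of the certificates** -/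
def CsgStmt : Prop := ∀ (n m s d : ℕ) (A : Matrix (Fin n) (Fin m) ℤ) (v : Fin m → ℤ),
  LinearIndependent ℤ (fun i => A i) → m ≤ s → 4 * d < 2 ^ s → (∀ i j, |A i j| < 2 ^ s) →
  (∀ j, |v j| < 2 ^ s) →
  ((∃ c : Fin n → ℤ, (v - c ᵥ* A) ⬝ᵥ (v - c ᵥ* A) ≤ (d : ℤ)) →
    {q ∈ CS A v d s | Odd q.1.length}.ncard = {q ∈ CS A v d s | Even q.1.length}.ncard + 1) ∧
  ((∀ c : Fin n → ℤ, ((1 + n * (n + 1) / 2 : ℕ) : ℤ) * d < (v - c ᵥ* A) ⬝ᵥ (v - c ᵥ* A)) →
    {q ∈ CS A v d s | Odd q.1.length}.ncard = {q ∈ CS A v d s | Even q.1.length}.ncard)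

theorem csg (hBnd : BndStmt) (hHne : HneStmt) (hHnu : HnuStmt) (hHnd : HndStmt)
    (hGgp : GgpStmt) (hIna : InaStmt) (hPhs : PhsStmt) (hOpt : OptStmt)
    (hEvu : EvuSStmt) (hEvw : EvwSStmt) (hDsr : DsrStmt) (hTlu : TluStmt) (hTle : TleStmt)
    (hTln : TlnStmt) (hBnu : BnuStmt) (hBny : BnyStmt) (hFib : FibSStmt) (hCsf : CsfStmt) :
    CsgStmt := by
  intro n m s d A v hA hm hD hAe hv
  have hBb : ∀ B, PQ (rows A) (4 * d) B → ∀ i j, |B i j| ≤ 2 ^ (s * s + s) :=
    fun B hB => PQ_bound hBnd hm hD (rows A) B hB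
  obtain ⟨B₀, hB₀q, hB₀o, hpar⟩ := signed (d := d) (s := s) hPhs hHne hHnu hHnd hOpt hEvu hEvw
    hFib hCsf A v
  have hrng := fun u z y hT => tail_rng hIna hGgp hDsr hBnu hBny A v hA hm hD hAe hv B₀ hB₀q.1
    (hBb B₀ hB₀q) u z y hT
  constructor
  · intro h
    rw [hpar]
    obtain ⟨u, z, y, hT⟩ := hTle n m d A v B₀ hB₀q.1 hB₀q.2.1 h
    have : TS A v d s B₀ = {(u, z, y)} := by
      ext ⟨u', z', y'⟩
      simp only [TS, Set.mem_setOf_eq, Set.mem_singleton_iff, Prod.mk.injEq]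
      constructor
      · rintro ⟨h1, -⟩
        exact hTlu n m d A v B₀ hA hB₀q.1 hB₀o u' u z' z y' y h1 hT
      · rintro ⟨rfl, rfl, rfl⟩
        exact ⟨hT, hrng _ _ _ hT⟩
    rw [this, Set.ncard_singleton]
  · intro h
    rw [hpar]
    have : TS A v d s B₀ = ∅ := by
      rw [Set.eq_empty_iff_forall_notMem]
      rintro ⟨u, z, y⟩ ⟨hT, -⟩
      obtain ⟨c, hc⟩ := hTln n m d A v B₀ hB₀q.1 hB₀o u z y hT
      exact absurd hc (not_le.2 (h c))
    rw [this, Set.ncard_empty, add_zero]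

end Pool.Agent.LAT.H72
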