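import Pool.Agent.Helper72_LAT.FinalC
import Pool.Agent.Helper72_LAT.CSG
import Pool.Agent.Helper58_LAT.FIBS

/-!
# Signed number of the certificates of part 2: assembly
-/

set_option autoImplicit false

namespace Pool.Agent.LAT.H72

theorem fibS : FibSStmt := by
  intro n m d s A v B hB
  obtain ⟨-, -, hph, -⟩ := phs m (4 * d)
  have h3 : 1 ≤ ph (4 * d) (rows B) := by
    rw [hph, (hnd m B hB.1).1, (hnd m B hB.1).2]
    exact hB.2.2
  exact H58.fibs hne hnu hnd pos n m d s A v B hB (evwS phs phf m (4 * d) (rows B) h3).1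
    (evuS phs phf m (rows A) (4 * d) (rows B) hB.2.1 h3).1

/-- the signed number of the certificates, without hypotheses -/
theorem csgF : CsgStmt :=
  csg bnd hne hnu hnd ggp ina phs opt (evuS phs phf) (evwS phs phf) dsr tlu tle tln bnu bny fibS csf

end Pool.Agent.LAT.H72
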