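import Pool.Agent.Helper72_LAT.Final
import Pool.Agent.Helper72_LAT.SGN

/-!
# Signed number of the chains of `PP L D`

The sign of a chain is given by the parity of its length.
-/

set_option autoImplicit false

namespace Pool.Agent.LAT.H72

open Matrix Pool.Agent.PAR Pool.Agent.PAR.H58

/-- CNT, signed -/
def CnsStmt : Prop := ∀ (m : ℕ) (L : Submodule ℤ (Fin m → ℤ)) (D : ℕ),
  ((∃ w ∈ L, w ≠ 0 ∧ w ⬝ᵥ w ≤ (D : ℤ)) →
    {l ∈ chL L D | Odd l.length}.ncard = {l ∈ chL L D | Even l.length}.ncard + 1) ∧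
  ((∀ w ∈ L, w ≠ 0 → (rk L : ℤ) * D < w ⬝ᵥ w) → chL L D = ∅) ∧
  ({l ∈ chL L D | Odd l.length}.ncard = {l ∈ chL L D | Even l.length}.ncard + 1 ∨ chL L D = ∅)

/-- the signed number of the nonempty chains in a finite set with all joins with `T` -/
theorem ne_sgn {α : Type} [SemilatticeSup α] (P : Set α) (hP : P.Finite) (T : α) (hT : T ∈ P)
    (hj : ∀ x ∈ P, x ⊔ T ∈ P) :
    {l : List α | (l ≠ [] ∧ (∀ x ∈ l, x ∈ P) ∧ l.Pairwise (· < ·)) ∧ Odd l.length}.ncard =
      {l : List α | (l ≠ [] ∧ (∀ x ∈ l, x ∈ P) ∧ l.Pairwise (· < ·)) ∧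
        Even l.length}.ncard + 1 := by
  classical
  have hfin : (Chains P (· ≤ ·)).Finite := by
    refine chains_finite hP P.ncard fun l hl => ?_
    have hnd : l.Nodup := hl.2.imp fun h => h.2
    rw [← List.toFinset_card_of_nodup hnd, Set.ncard_eq_toFinset_card P hP]
    refine Finset.card_le_card fun x hx => ?_
    simpa using hl.1 x (by simpa using hx)
  have h := sgn_join (S := P) (r := (· ≤ ·)) hfin (fun u _ => le_refl u)
    (fun u _ v _ => le_antisymm) (fun u _ v _ w _ => le_trans) hT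
    (fun y hy => ⟨y ⊔ T, hj y hy, le_sup_left, le_sup_right, fun w _ h1 h2 => sup_le h1 h2⟩)
  rw [← chains_eq] at h
  have e1 : {l : List α | (l ≠ [] ∧ (∀ x ∈ l, x ∈ P) ∧ l.Pairwise (· < ·)) ∧ Odd l.length} =
      {l ∈ {l : List α | (∀ x ∈ l, x ∈ P) ∧ l.Pairwise (· < ·)} | Odd l.length} := by
    ext l
    simp only [Set.mem_setOf_eq]
    constructor
    · exact fun h => ⟨h.1.2, h.2⟩
    · rintro ⟨h1, h2⟩
      refine ⟨⟨?_, h1⟩, h2⟩
      rintro rfl
      simp at h2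
  have e2 : {l : List α | (l ≠ [] ∧ (∀ x ∈ l, x ∈ P) ∧ l.Pairwise (· < ·)) ∧ Even l.length} =
      {l ∈ {l : List α | (∀ x ∈ l, x ∈ P) ∧ l.Pairwise (· < ·)} | l ≠ [] ∧ Even l.length} := by
    ext l
    simp only [Set.mem_setOf_eq]
    tauto
  rw [e1, e2]
  exact h

theorem cns (hCon : ConStmt) (hBnd : BndStmt) (hHne : HneStmt) (hHnu : HnuStmt)
    (hHnd : HndStmt) (hVec : VecStmt) (hMin : MinStmt) : CnsStmt := by
  classical
  intro m L D
  have hpp := pp_iff hHnd L D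
  choose g hg1 hg2 using hHne m
  have hinj : Set.InjOn (fun B : Matrix (Fin m) (Fin m) ℤ => rows B) {B | PP L D B} := by
    intro B hB B' hB' h
    exact hHnu m B B' hB.1 hB'.1 h
  have hPMfin : {M | PM L D M}.Finite := by
    refine Set.Finite.subset ((pp_finite hBnd L D).image (fun B => rows B)) fun M hM => ?_
    refine ⟨g M, ?_, hg2 M⟩
    exact (hpp (g M)).2 ⟨hg1 M, by rw [hg2]; exact hM⟩
  have himg : ∀ p : ℕ → Prop,
      (fun l => List.map (fun B : Matrix (Fin m) (Fin m) ℤ => rows B) l) ''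
        {l ∈ chL L D | p l.length} =
      {l : List (Submodule ℤ (Fin m → ℤ)) | (l ≠ [] ∧ (∀ x ∈ l, x ∈ {M | PM L D M}) ∧
        l.Pairwise (· < ·)) ∧ p l.length} := by
    intro p
    ext l
    simp only [Set.mem_image, Set.mem_setOf_eq, chL]
    constructor
    · rintro ⟨l', ⟨⟨h1, h2, h3⟩, h4⟩, rfl⟩
      refine ⟨⟨by simpa using h1, ?_, ?_⟩, by rw [List.length_map]; exact h4⟩
      · intro x hx
        obtain ⟨B, hB, rfl⟩ := List.mem_map.1 hx
        exact ((hpp B).1 (h2 B hB)).2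
      · rw [List.pairwise_map]
        exact h3
    · rintro ⟨⟨h1, h2, h3⟩, h4⟩
      refine ⟨l.map g, ⟨⟨by simpa using h1, ?_, ?_⟩, by rw [List.length_map]; exact h4⟩, ?_⟩
      · intro B hB
        obtain ⟨M, hM, rfl⟩ := List.mem_map.1 hB
        exact (hpp (g M)).2 ⟨hg1 M, by rw [hg2]; exact h2 M hM⟩
      · rw [List.pairwise_map]
        simpa only [hg2] using h3
      · rw [List.map_map]
        have : ((fun B : Matrix (Fin m) (Fin m) ℤ => rows B) ∘ g) = id := by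
          funext M
          exact hg2 M
        rw [this, List.map_id]
  have hinjL : Set.InjOn (fun l => List.map (fun B : Matrix (Fin m) (Fin m) ℤ => rows B) l)
      (chL L D) := by
    intro l₁ h1 l₂ h2 he
    exact map_injOn hinj l₁ l₂ h1.2.1 h2.2.1 he
  have hempty : (¬ ∃ M, PM L D M) → chL L D = ∅ := by
    intro h
    rw [Set.eq_empty_iff_forall_notMem]
    rintro l ⟨h1, h2, _⟩
    obtain ⟨B, hB⟩ := List.exists_mem_of_ne_nil l h1
    exact h ⟨rows B, ((hpp B).1 (h2 B hB)).2⟩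
  have hodd : (∃ M, PM L D M) →
      {l ∈ chL L D | Odd l.length}.ncard = {l ∈ chL L D | Even l.length}.ncard + 1 := by
    intro h
    obtain ⟨T, hT, hj⟩ := hCon m L D h
    have ho := ne_sgn {M | PM L D M} hPMfin T hT (fun x hx => hj x hx)
    rw [← himg, ← himg, Set.ncard_image_of_injOn (hinjL.mono fun l hl => hl.1),
      Set.ncard_image_of_injOn (hinjL.mono fun l hl => hl.1)] at ho
    exact ho
  refine ⟨?_, ?_, ?_⟩
  · rintro ⟨w, hw, hw0, hwD⟩
    exact hodd ⟨_, hVec m L D w hw0 hw hwD⟩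
  · intro h
    refine hempty ?_
    rintro ⟨M, hM⟩
    obtain ⟨w, hw, hw0, hle⟩ := hMin m L D M hM
    have h1 := h w (hM.2.1 hw) hw0
    have h2 : rk M ≤ rk L := Submodule.finrank_mono hM.2.1
    have h3 : (rk M : ℤ) * D ≤ (rk L : ℤ) * D :=
      mul_le_mul_of_nonneg_right (by exact_mod_cast h2) (by positivity)
    linarith
  · by_cases h : ∃ M, PM L D M
    · exact Or.inl (hodd h)
    · exact Or.inr (hempty h)

/-- the signed count of part 1, without hypotheses -/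
theorem cnsF : CnsStmt := cns con bnd hne hnu hnd vec mi

/-- the signed count for the lattice of the rows of `A` -/
theorem cnsA {n m : ℕ} (A : Matrix (Fin n) (Fin m) ℤ) (hA : LinearIndependent ℤ (fun i => A i))
    (D : ℕ) :
    ((∃ c : Fin n → ℤ, c ≠ 0 ∧ (c ᵥ* A) ⬝ᵥ (c ᵥ* A) ≤ (D : ℤ)) →
      {l ∈ chL (rows A) D | Odd l.length}.ncard =
        {l ∈ chL (rows A) D | Even l.length}.ncard + 1) ∧
    ((∀ c : Fin n → ℤ, c ≠ 0 → (n : ℤ) * D < (c ᵥ* A) ⬝ᵥ (c ᵥ* A)) → chL (rows A) D = ∅) ∧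
    ({l ∈ chL (rows A) D | Odd l.length}.ncard =
      {l ∈ chL (rows A) D | Even l.length}.ncard + 1 ∨ chL (rows A) D = ∅) := by
  obtain ⟨c3, c4, c5⟩ := cnsF m (rows A) D
  refine ⟨?_, ?_, c5⟩
  · rintro ⟨c, hc, hle⟩
    exact c3 ⟨c ᵥ* A, (mem_rows A _).2 ⟨c, rfl⟩, vecMul_ne_zero A hA c hc, hle⟩
  · intro h
    refine c4 ?_
    intro w hw hw0
    obtain ⟨c, rfl⟩ := (mem_rows A w).1 hw
    rw [rk_rows A hA]
    refine h c ?_
    rintro rfl
    exact hw0 (Matrix.zero_vecMul A)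

end Pool.Agent.LAT.H72
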